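import Pool.Agent.Lib.H49D.DD

set_option autoImplicit false

/-!
CHUNK A1 (M, many short lemmas).  Calculus of `Small` and `Aux`.
-/

open MvPolynomial Real MeasureTheory

namespace Pool.Agent.H49D

open Pool.Agent.H89T Pool.Agent.H78G Pool.Agent.H67T Pool.Agent.H53Y

variable {N : ℕ} {y : ℂ → Fin N → ℂ}

/-- CHUNK A1.  The constant function (`1 ≤ err y r R` is `H89T.NS2_err_ge`; `c ≤ |c| * err`;
`circleAverage_const`). -/
theorem small_const (c : ℝ) : Small y fun _ => c := by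
  refine ⟨fun _ => c, fun _ => le_rfl, fun r => circleIntegrable_const c 0 r, |c|, abs_nonneg c,
    fun r R _ _ => ?_⟩
  rw [circleAverage_const]
  exact (le_abs_self c).trans (le_mul_of_one_le_right (abs_nonneg c) (NS2_err_ge y r R))

/-- CHUNK A1.  Sum of the majorants (`circleAverage_add`, `CircleIntegrable.add`). -/
theorem Small.add {f g : ℂ → ℝ} (hf : Small y f) (hg : Small y g) :
    Small y fun z => f z + g z := by
  obtain ⟨f', hf1, hf2, C, hC, hf3⟩ := hf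
  obtain ⟨g', hg1, hg2, C', hC', hg3⟩ := hg
  refine ⟨fun z => f' z + g' z, fun z => add_le_add (hf1 z) (hg1 z),
    fun r => (hf2 r).add (hg2 r), C + C', add_nonneg hC hC', fun r R hr hR => ?_⟩
  rw [circleAverage_fun_add (hf2 r) (hg2 r), add_mul]
  exact add_le_add (hf3 r R hr hR) (hg3 r R hr hR)

/-- CHUNK A1.  Multiplication of the majorant by `a` (`circleAverage_const_smul` or the definition). -/
theorem Small.smul {f : ℂ → ℝ} (a : ℕ) (hf : Small y f) : Small y fun z => (a : ℝ) * f z := by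
  obtain ⟨f', hf1, hf2, C, hC, hf3⟩ := hf
  refine ⟨fun z => (a : ℝ) * f' z, fun z => mul_le_mul_of_nonneg_left (hf1 z) (Nat.cast_nonneg a),
    fun r => (NS2_mul (a : ℝ) ⟨hf2 r, rfl⟩).1, a * C, mul_nonneg (Nat.cast_nonneg a) hC,
    fun r R hr hR => ?_⟩
  rw [(NS2_mul (a : ℝ) (⟨hf2 r, rfl⟩ : NS2_Avg r f' _)).2, mul_assoc]
  exact mul_le_mul_of_nonneg_left (hf3 r R hr hR) (Nat.cast_nonneg a)

/-- CHUNK A1.  Induction on the finite set (`small_const 0`, `Small.add`). -/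
theorem Small.sum {κ : Type} (s : Finset κ) {f : κ → ℂ → ℝ} (hf : ∀ i ∈ s, Small y (f i)) :
    Small y fun z => ∑ i ∈ s, f i z := by
  classical
  induction s using Finset.induction_on with
  | empty =>
    simp only [Finset.sum_empty]
    exact small_const 0
  | insert i s hi ih =>
    simp only [Finset.sum_insert hi]
    exact (hf i (Finset.mem_insert_self i s)).add
      (ih fun j hj => hf j (Finset.mem_insert_of_mem hj))

/-- CHUNK A1. -/
theorem Small.mono {f g : ℂ → ℝ} (hf : Small y f) (hle : ∀ z, g z ≤ f z) : Small y g := by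
  obtain ⟨f', hf1, hf2⟩ := hf
  exact ⟨f', fun z => (hle z).trans (hf1 z), hf2⟩

/-- CHUNK A1. -/
theorem Aux.one : Aux y (fun _ => 1) (fun _ => 1) 0 0 := by
  refine ⟨⟨differentiable_const _, 0, one_ne_zero⟩, ⟨differentiable_const _, 0, one_ne_zero⟩,
    fun _ => 1, fun _ => 0, differentiable_const _, ⟨0, one_ne_zero⟩, small_const 0,
    fun z _ => ?_⟩
  simp

theorem a1_mul_ne {f g : ℂ → ℂ} (hf : Differentiable ℂ f) (hf0 : ∃ z, f z ≠ 0)
    (hg : Differentiable ℂ g) (hg0 : ∃ z, g z ≠ 0) : ∃ z, f z * g z ≠ 0 := by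
  obtain ⟨z, h1, h2⟩ := ((eventually_ne_of_entire hf hf0).and
    (eventually_ne_of_entire hg hg0)).exists
  exact ⟨z, mul_ne_zero h1 h2⟩

/-- CHUNK A1.  `G₀` is the product of the two `G₀`, of `E₁ E₂` and of `G₁ G₂` (not identically zero:
`H89T.eventually_ne_of_entire` for all factors); at the points with `G₀ ≠ 0` all logarithms of products are
sums. -/
theorem Aux.mul {E₁ E₂ G₁ G₂ : ℂ → ℂ} {κ₁ κ₂ B₁ B₂ : ℕ} (h₁ : Aux y E₁ G₁ κ₁ B₁)
    (h₂ : Aux y E₂ G₂ κ₂ B₂) :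
    Aux y (fun z => E₁ z * E₂ z) (fun z => G₁ z * G₂ z) (κ₁ + κ₂) (B₁ + B₂) := by
  obtain ⟨⟨hE1, hE1'⟩, ⟨hG1, hG1'⟩, F₁, f₁, hF1, hF1', hf1, hb1⟩ := h₁
  obtain ⟨⟨hE2, hE2'⟩, ⟨hG2, hG2'⟩, F₂, f₂, hF2, hF2', hf2, hb2⟩ := h₂
  have hE := a1_mul_ne hE1 hE1' hE2 hE2'
  have hG := a1_mul_ne hG1 hG1' hG2 hG2'
  have hF := a1_mul_ne hF1 hF1' hF2 hF2'
  have hEd := hE1.fun_mul hE2
  have hGd := hG1.fun_mul hG2
  have hFd := hF1.fun_mul hF2
  refine ⟨⟨hEd, hE⟩, ⟨hGd, hG⟩, fun z => (F₁ z * F₂ z) * ((E₁ z * E₂ z) * (G₁ z * G₂ z)),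
    fun z => f₁ z + f₂ z, hFd.fun_mul (hEd.fun_mul hGd),
    a1_mul_ne hFd hF (hEd.fun_mul hGd) (a1_mul_ne hEd hE hGd hG), hf1.add hf2, fun z hz => ?_⟩
  simp only [ne_eq, mul_eq_zero, not_or] at hz
  obtain ⟨⟨hz1, hz2⟩, ⟨hz3, hz4⟩, hz5, hz6⟩ := hz
  have h1 := hb1 z hz1
  have h2 := hb2 z hz2
  rw [norm_mul, norm_mul, Real.log_mul (norm_ne_zero_iff.2 hz3) (norm_ne_zero_iff.2 hz4),
    Real.log_mul (norm_ne_zero_iff.2 hz5) (norm_ne_zero_iff.2 hz6)]
  push_cast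
  linarith

/-- CHUNK A1.  Induction on the finite set (`Aux.one`, `Aux.mul`). -/
theorem Aux.prod {κ : Type} (s : Finset κ) {E G : κ → ℂ → ℂ} {a b : κ → ℕ}
    (h : ∀ i ∈ s, Aux y (E i) (G i) (a i) (b i)) :
    Aux y (fun z => ∏ i ∈ s, E i z) (fun z => ∏ i ∈ s, G i z) (∑ i ∈ s, a i) (∑ i ∈ s, b i) := by
  classical
  induction s using Finset.induction_on with
  | empty =>
    simp only [Finset.prod_empty, Finset.sum_empty]
    exact Aux.one
  | insert i s hi ih =>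
    simp only [Finset.prod_insert hi, Finset.sum_insert hi]
    exact (h i (Finset.mem_insert_self i s)).mul
      (ih fun j hj => h j (Finset.mem_insert_of_mem hj))

/-- CHUNK A1.  Induction on `a` or `log (x ^ a) = a * log x`. -/
theorem Aux.pow {E G : ℂ → ℂ} {κ B : ℕ} (h : Aux y E G κ B) (a : ℕ) :
    Aux y (fun z => E z ^ a) (fun z => G z ^ a) (a * κ) (a * B) := by
  induction a with
  | zero =>
    simp only [pow_zero, zero_mul]
    exact Aux.one
  | succ a ih =>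
    simp only [pow_succ, Nat.succ_mul]
    exact ih.mul h

end Pool.Agent.H49D
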