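import Pool.Agent.Lib.H49D.A1

set_option autoImplicit false

/-!
CHUNK A2 (M, shorten the proof of `H78G.core_abs` in `H78G/D1.lean`).  From an auxiliary function to
the inequality.
-/

open MvPolynomial Real MeasureTheory

namespace Pool.Agent.H49D

open Pool.Agent.H89T Pool.Agent.H78G Pool.Agent.H67T Pool.Agent.H53Y

/-- CHUNK A2 (M).  Copy the proof of `H78G.core_abs`; the averages of the logarithmic derivatives are
replaced by the majorant `g` of `h` in `Small y h`.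

`jensen_compare` with `k := ρ` copies of `Fy` gives
`ρ * avg log ‖Fy‖ ≤ avg log ‖E‖ + ρ * N1 Fy r + K`; the pointwise inequality
`log ‖E‖ + κ log ‖y‖ ≤ ρ log ‖Fy‖ + B log ‖y‖ + g` outside the zeros of the entire function
`E * Fy * G₀` (`log ‖Fy ^ ρ‖ = ρ log ‖Fy‖`) is averaged with `NS2_mono` (`NS2_Avg`: `NS2_int_log`,
`NS2_int_log_y`, and `⟨hg r, rfl⟩` for `g`). -/
theorem core_small {N : ℕ} {y : ℂ → Fin N → ℂ} (hy : IsHol y) {E Fy : ℂ → ℂ} {κ B ρ : ℕ} (hρ : 1 ≤ ρ)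
    (h : Aux y E (fun z => Fy z ^ ρ) κ B) (hF : Differentiable ℂ Fy)
    (hord : ∀ (z : ℂ) (k : ℕ), (k : ℕ∞) ≤ analyticOrderAt Fy z →
      ((ρ * (k - 1) : ℕ) : ℕ∞) ≤ analyticOrderAt E z) :
    ∃ C : ℝ, 0 ≤ C ∧ ∀ r R : ℝ, 1 ≤ r → r < R →
      (κ : ℝ) * chi y r ≤ ρ * N1 Fy r + B * chi y r + C * err y r R := by
  classical
  obtain ⟨⟨hE, hE0⟩, ⟨hG, hG0⟩, G₀, h₀, hG₀, hG₀0, ⟨g, hle, hg, C, hC, hgC⟩, hmain⟩ := h
  have hF0 : ∃ z, Fy z ≠ 0 := by
    obtain ⟨z, hz⟩ := hG0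
    exact ⟨z, fun h0 => hz (by
      change Fy z ^ ρ = 0
      rw [h0, zero_pow (by omega)])⟩
  obtain ⟨K, hK⟩ := jensen_compare (k := ρ) (g := fun _ => Fy) (fun _ => hF)
    (fun _ => hF0) hE hE0 (by
      intro z m' hm'
      have : Nonempty (Fin ρ) := ⟨⟨0, hρ⟩⟩
      obtain ⟨i, hi⟩ := Finite.exists_max m'
      refine le_trans ?_ (hord z (m' i) (hm' i))
      have h1 : ∑ j, (m' j - 1) ≤ ρ * (m' i - 1) := by
        calc ∑ j, (m' j - 1) ≤ ∑ _j : Fin ρ, (m' i - 1) :=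
              Finset.sum_le_sum fun j _ => Nat.sub_le_sub_right (hi j) 1
          _ = ρ * (m' i - 1) := by simp
      exact_mod_cast h1)
  refine ⟨|K| + C, by positivity, fun r R hr hrR => ?_⟩
  have hr0 : r ≠ 0 := by linarith
  have herr := NS2_err_ge y r R
  obtain ⟨F, hFdef⟩ : ∃ F : ℂ → ℂ, F = fun z => E z * Fy z * G₀ z := ⟨_, rfl⟩
  have hFd : Differentiable ℂ F := by
    rw [hFdef]
    exact (hE.mul hF).mul hG₀
  have hF0' : ∃ z, F z ≠ 0 := by
    have h1 := eventually_ne_of_entire hE hE0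
    have h2 := eventually_ne_of_entire hF hF0
    have h3 := eventually_ne_of_entire hG₀ hG₀0
    obtain ⟨z, hz1, hz2, hz3⟩ := (h1.and (h2.and h3)).exists
    refine ⟨z, ?_⟩
    rw [hFdef]
    exact mul_ne_zero (mul_ne_zero hz1 hz2) hz3
  have hAE : NS2_Avg r (fun z => log ‖E z‖) (circleAverage (fun z => log ‖E z‖) 0 r) :=
    ⟨NS2_int_log hE r, rfl⟩
  have hAF : NS2_Avg r (fun z => log ‖Fy z‖)
      (circleAverage (fun z => log ‖Fy z‖) 0 r) := ⟨NS2_int_log hF r, rfl⟩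
  have hAy : NS2_Avg r (fun z => log ‖y z‖) (chi y r) := ⟨NS2_int_log_y hy r, rfl⟩
  have hAg : NS2_Avg r g (circleAverage g 0 r) := ⟨hg r, rfl⟩
  have h1 := NS2_mono hr0 (NS2_add hAE (NS2_mul (κ : ℝ) hAy))
    (NS2_add (NS2_add (NS2_mul (ρ : ℝ) hAF) (NS2_mul (B : ℝ) hAy)) hAg) hFd hF0' (by
      intro z hz
      have hz' : G₀ z ≠ 0 := by
        rw [hFdef] at hz
        exact right_ne_zero_of_mul hz
      have h2 := hmain z hz'
      change _ ≤ log ‖Fy z ^ ρ‖ + B * log ‖y z‖ + h₀ z at h2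
      rw [norm_pow, Real.log_pow] at h2
      have h3 := hle z
      linarith)
  have hJ := hK r hr
  simp only [Finset.sum_const, Finset.card_univ, Fintype.card_fin, nsmul_eq_mul] at hJ
  have e2 : |K| ≤ |K| * err y r R := le_mul_of_one_le_right (abs_nonneg _) herr
  have e4 := le_abs_self K
  have e5 := hgC r R hr hrR
  have e6 : (|K| + C) * err y r R = |K| * err y r R + C * err y r R := add_mul _ _ _
  rw [e6]
  linarith

end Pool.Agent.H49D
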