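import Pool.Agent.Lib.H49D.A1

set_option autoImplicit false

/-!
CHUNK A3 (M).  The logarithms of the sums of logarithmic derivatives are small.
-/

open MvPolynomial Real MeasureTheory

namespace Pool.Agent.H49D

open Pool.Agent.H89T Pool.Agent.H78G Pool.Agent.H67T Pool.Agent.H53Y

/-- CHUNK A3.  `D1_log_LamG` (`H78G/D1.lean`) bounds `log (LamG ..)` by a constant plus a finite sum of
functions `log⁺ ‖iteratedDeriv l (G / H) / (G / H)‖`, `G = w_j` or `lin θ_i (w)`, `H = w_c`.  Each is circle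
integrable (`circleIntegrable_quo`) with small averages (`quo_avg hy`, with `k := e`: all these
functions are bounded by `A' * ‖y z‖ ^ e`, see the beginning of the proof of `core_abs`, `NS2_lin_le`,
`NS2_lin_diff`).  Then `Small.add`, `Small.sum`, `small_const`, `Small.mono`. -/
theorem small_LamG {N : ℕ} {y : ℂ → Fin N → ℂ} (hy : IsHol y) {m e : ℕ}
    {w : ℂ → Fin (m + 1) → ℂ} (hw : ∀ j, Differentiable ℂ fun z => w z j)
    (hw0 : ∀ c, ∃ z, w z c ≠ 0) (hle : ∃ A : ℝ, ∀ z, ‖w z‖ ≤ A * ‖y z‖ ^ e) {ι : Type}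
    [Fintype ι] {θ : ι → Fin (m + 1) → ℂ} (hθ0 : ∀ i, ∃ z, lin (θ i) (w z) ≠ 0) (L : ℕ) :
    Small y fun z => log (LamG w θ L z) := by
  classical
  obtain ⟨K, hK, hLam⟩ := D1_log_LamG w θ L
  obtain ⟨A0, hA0⟩ := hle
  obtain ⟨T, hT⟩ : ∃ T : ℝ, T = 1 + ∑ i, ∑ j, ‖θ i j‖ := ⟨_, rfl⟩
  have hT0 : 0 ≤ ∑ i, ∑ j, ‖θ i j‖ :=
    Finset.sum_nonneg fun _ _ => Finset.sum_nonneg fun _ _ => norm_nonneg _
  have hT1 : 1 ≤ T := by
    rw [hT]
    linarith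
  obtain ⟨A, hA⟩ : ∃ A : ℝ, A = T * max 1 A0 := ⟨_, rfl⟩
  have hm1 : 1 ≤ max 1 A0 := le_max_left _ _
  have hA1 : 1 ≤ A := by
    rw [hA]
    nlinarith
  have hw1 : ∀ z, ‖w z‖ ≤ max 1 A0 * ‖y z‖ ^ e := fun z =>
    (hA0 z).trans (mul_le_mul_of_nonneg_right (le_max_right _ _) (by positivity))
  have hwA : ∀ j z, ‖w z j‖ ≤ A * ‖y z‖ ^ e := by
    intro j z
    refine ((norm_le_pi_norm (w z) j).trans (hw1 z)).trans ?_
    refine mul_le_mul_of_nonneg_right ?_ (by positivity)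
    rw [hA]
    nlinarith
  have hlA : ∀ i z, ‖lin (θ i) (w z)‖ ≤ A * ‖y z‖ ^ e := by
    intro i z
    have h1 : ∑ j, ‖θ i j‖ ≤ T := by
      have h : ∑ j, ‖θ i j‖ ≤ ∑ i, ∑ j, ‖θ i j‖ :=
        Finset.single_le_sum (f := fun i => ∑ j, ‖θ i j‖)
          (fun _ _ => Finset.sum_nonneg fun _ _ => norm_nonneg _) (Finset.mem_univ i)
      rw [hT]
      linarith
    calc ‖lin (θ i) (w z)‖ ≤ (∑ j, ‖θ i j‖) * ‖w z‖ := NS2_lin_le _ _
      _ ≤ T * (max 1 A0 * ‖y z‖ ^ e) :=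
          mul_le_mul h1 (hw1 z) (norm_nonneg _) (by linarith)
      _ = A * ‖y z‖ ^ e := by rw [hA, mul_assoc]
  have hld : ∀ i, Differentiable ℂ (fun z => lin (θ i) (w z)) := fun i => NS2_lin_diff _ hw
  have hs1 : Small y fun z => ∑ p : Fin (m + 1) × Fin (m + 1) × Fin (L + 1),
      log⁺ ‖iteratedDeriv (p.2.2 : ℕ) (fun v => w v p.2.1 / w v p.1) z /
        (w z p.2.1 / w z p.1)‖ :=
    Small.sum Finset.univ (f := fun (p : Fin (m + 1) × Fin (m + 1) × Fin (L + 1)) z =>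
      log⁺ ‖iteratedDeriv (p.2.2 : ℕ) (fun v => w v p.2.1 / w v p.1) z /
        (w z p.2.1 / w z p.1)‖) fun p _ =>
      ⟨_, fun z => le_rfl, circleIntegrable_quo (hw p.2.1) (hw p.1) (hw0 _) _,
        quo_avg hy (hw p.2.1) (hw p.1) (hw0 _) (hw0 _) hA1 (hwA p.2.1) (hwA p.1) _⟩
  have hs2 : Small y fun z => ∑ p : Fin (m + 1) × ι × Fin (L + 1),
      log⁺ ‖iteratedDeriv (p.2.2 : ℕ) (fun v => lin (θ p.2.1) (w v) / w v p.1) z /
        (lin (θ p.2.1) (w z) / w z p.1)‖ :=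
    Small.sum Finset.univ (f := fun (p : Fin (m + 1) × ι × Fin (L + 1)) z =>
      log⁺ ‖iteratedDeriv (p.2.2 : ℕ) (fun v => lin (θ p.2.1) (w v) / w v p.1) z /
        (lin (θ p.2.1) (w z) / w z p.1)‖) fun p _ =>
      ⟨_, fun z => le_rfl, circleIntegrable_quo (hld p.2.1) (hw p.1) (hw0 _) _,
        quo_avg hy (hld p.2.1) (hw p.1) (hθ0 _) (hw0 _) hA1 (hlA p.2.1) (hwA p.1) _⟩
  exact ((small_const K).add (hs1.add hs2)).mono hLam

/-- CHUNK A3.  The same with `DG_log_Lam` (`H89T/DG.lean`): `G = w_j`, `H = w_c` (bounded by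
`A ‖y‖ ^ e`) and `G = F (w)`, `H = w_c ^ k` (bounded by `A ‖w‖ ^ k ≤ A' ‖y‖ ^ (e k)`, `D.hFle`); see the
beginning of the proof of `H89T.core`. -/
theorem small_Lam {N : ℕ} {y : ℂ → Fin N → ℂ} (hy : IsHol y) {m k e : ℕ} (D : CurveData m k)
    (hle : ∃ A : ℝ, ∀ z, ‖D.y z‖ ≤ A * ‖y z‖ ^ e) (L : ℕ) :
    Small y fun z => log (Lam D.y D.Fy k L z) := by
  classical
  obtain ⟨K, hK, hLam⟩ := DG_log_Lam D.y D.Fy k L
  obtain ⟨A0, hA0⟩ := hle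
  obtain ⟨A', hA'⟩ := D.hFle
  have hyd := D.hy.diff
  have hm1 : 1 ≤ max 1 A0 := le_max_left _ _
  have hm2 : 1 ≤ max 1 A' := le_max_left _ _
  have hmk : 1 ≤ max 1 A0 ^ k := one_le_pow₀ hm1
  obtain ⟨A, hA⟩ : ∃ A : ℝ, A = max 1 A' * (max 1 A0 ^ k) := ⟨_, rfl⟩
  have hA1 : 1 ≤ A := by
    rw [hA]
    nlinarith
  have hw1 : ∀ z, ‖D.y z‖ ≤ max 1 A0 * ‖y z‖ ^ e := fun z =>
    (hA0 z).trans (mul_le_mul_of_nonneg_right (le_max_right _ _) (by positivity))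
  have hwk : ∀ z, ‖D.y z‖ ^ k ≤ max 1 A0 ^ k * ‖y z‖ ^ (e * k) := fun z => by
    calc ‖D.y z‖ ^ k ≤ (max 1 A0 * ‖y z‖ ^ e) ^ k := pow_le_pow_left₀ (norm_nonneg _) (hw1 z) k
      _ = max 1 A0 ^ k * ‖y z‖ ^ (e * k) := by rw [mul_pow, pow_mul]
  have hFA : ∀ z, ‖D.Fy z‖ ≤ A * ‖y z‖ ^ (e * k) := fun z => by
    calc ‖D.Fy z‖ ≤ A' * ‖D.y z‖ ^ k := hA' z
      _ ≤ max 1 A' * (max 1 A0 ^ k * ‖y z‖ ^ (e * k)) :=
          mul_le_mul (le_max_right _ _) (hwk z) (by positivity) (by linarith)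
      _ = A * ‖y z‖ ^ (e * k) := by rw [hA, mul_assoc]
  have hykA : ∀ j z, ‖D.y z j ^ k‖ ≤ A * ‖y z‖ ^ (e * k) := by
    intro j z
    rw [norm_pow]
    refine ((pow_le_pow_left₀ (norm_nonneg _) (norm_le_pi_norm (D.y z) j) k).trans
      (hwk z)).trans ?_
    refine mul_le_mul_of_nonneg_right ?_ (by positivity)
    rw [hA]
    exact le_mul_of_one_le_left (by positivity) hm2
  have hyA : ∀ j z, ‖D.y z j‖ ≤ max 1 A0 * ‖y z‖ ^ e := fun j z =>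
    (norm_le_pi_norm (D.y z) j).trans (hw1 z)
  have hykd : ∀ j, Differentiable ℂ fun z => D.y z j ^ k := fun j => (hyd j).fun_pow k
  have hyk0 : ∀ j, ∃ z, D.y z j ^ k ≠ 0 := by
    intro j
    obtain ⟨z, hz⟩ := D.hy0 j
    exact ⟨z, pow_ne_zero _ hz⟩
  have hs1 : Small y fun z => ∑ p : Fin (m + 1) × Fin m × Fin (L + 1),
      log⁺ ‖iteratedDeriv (p.2.2 : ℕ) (fun w => D.y w (p.1.succAbove p.2.1) / D.y w p.1) z /
        (D.y z (p.1.succAbove p.2.1) / D.y z p.1)‖ :=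
    Small.sum Finset.univ (f := fun (p : Fin (m + 1) × Fin m × Fin (L + 1)) z =>
      log⁺ ‖iteratedDeriv (p.2.2 : ℕ) (fun w => D.y w (p.1.succAbove p.2.1) / D.y w p.1) z /
        (D.y z (p.1.succAbove p.2.1) / D.y z p.1)‖) fun p _ =>
      ⟨_, fun z => le_rfl, circleIntegrable_quo (hyd (p.1.succAbove p.2.1)) (hyd p.1) (D.hy0 _) _,
        quo_avg hy (hyd (p.1.succAbove p.2.1)) (hyd p.1) (D.hy0 _) (D.hy0 _) hm1
          (hyA (p.1.succAbove p.2.1)) (hyA p.1) _⟩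
  have hs2 : Small y fun z => ∑ p : Fin (m + 1) × Fin (L + 1),
      log⁺ ‖iteratedDeriv (p.2 : ℕ) (fun w => D.Fy w / D.y w p.1 ^ k) z /
        (D.Fy z / D.y z p.1 ^ k)‖ :=
    Small.sum Finset.univ (f := fun (p : Fin (m + 1) × Fin (L + 1)) z =>
      log⁺ ‖iteratedDeriv (p.2 : ℕ) (fun w => D.Fy w / D.y w p.1 ^ k) z /
        (D.Fy z / D.y z p.1 ^ k)‖) fun p _ =>
      ⟨_, fun z => le_rfl, circleIntegrable_quo D.hF (hykd p.1) (hyk0 p.1) _,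
        quo_avg hy D.hF (hykd p.1) D.hF0 (hyk0 p.1) hA1 hFA (hykA p.1) _⟩
  exact ((small_const K).add (hs1.add hs2)).mono hLam

end Pool.Agent.H49D
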