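import Pool.Agent.Lib.H49D.A1

set_option autoImplicit false

/-!
CHUNK B0 (S/M).  From a pointwise bound in terms of `w` to `Aux` in terms of `y`
(`δ ‖y‖ ^ e ≤ ‖w‖ ≤ A ‖y‖ ^ e`).
-/

open MvPolynomial Real MeasureTheory

namespace Pool.Agent.H49D

open Pool.Agent.H89T Pool.Agent.H78G Pool.Agent.H67T Pool.Agent.H53Y

/-- CHUNK B0 (S).  Products of entire functions which are not identically zero
(`H89T.eventually_ne_of_entire`, see `hF0'` in the proof of `H78G.core_abs`). -/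
theorem exists_mul_ne {f g : ℂ → ℂ} (hf : Differentiable ℂ f) (hf0 : ∃ z, f z ≠ 0)
    (hg : Differentiable ℂ g) (hg0 : ∃ z, g z ≠ 0) : ∃ z, f z * g z ≠ 0 := by
  obtain ⟨z, h1, h2⟩ := ((eventually_ne_of_entire hf hf0).and
    (eventually_ne_of_entire hg hg0)).exists
  exact ⟨z, mul_ne_zero h1 h2⟩

/-- CHUNK B0 (S).  Finite products of entire functions which are not identically zero. -/
theorem exists_prod_ne {κ : Type} (s : Finset κ) {f : κ → ℂ → ℂ}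
    (hf : ∀ i ∈ s, Differentiable ℂ (f i)) (hf0 : ∀ i ∈ s, ∃ z, f i z ≠ 0) :
    ∃ z, ∏ i ∈ s, f i z ≠ 0 := by
  have h : ∀ᶠ z in nhdsWithin (0 : ℂ) {0}ᶜ, ∀ i ∈ s, f i z ≠ 0 :=
    (Filter.eventually_all_finset s).2 fun i hi => eventually_ne_of_entire (hf i hi) (hf0 i hi)
  obtain ⟨z, hz⟩ := h.exists
  exact ⟨z, Finset.prod_ne_zero_iff.2 hz⟩

/-- CHUNK B0 (S/M).  Take `G₀ * (E * G)` as the new exceptional function, `C' = max 1 C`,
`A' = max 1 A`.  Where it is not `0`, `‖y z‖ > 0`, `‖w z‖ ≥ δ ‖y z‖ ^ e > 0`, all logarithms of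
products are sums, and
`a * log ‖w‖ ≥ a * (log δ + e * log ‖y‖)`, `b * log ‖w‖ ≤ b * (log A' + e * log ‖y‖)`; so
`log ‖E‖ + (e * a) log ‖y‖ ≤ log ‖G‖ + (e * b) log ‖y‖ + (log C' - a log δ + b log A' + q log Λ)`, and the
last bracket is small (`small_const`, `Small.smul`, `Small.add`). -/
theorem aux_of_bound {N m : ℕ} {y : ℂ → Fin N → ℂ} {w : ℂ → Fin m → ℂ} {E G G₀ : ℂ → ℂ}
    {Λ : ℂ → ℝ} {e a b q : ℕ} {C : ℝ} (hy : IsHol y) (hE : Differentiable ℂ E) (hE0 : ∃ z, E z ≠ 0)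
    (hG : Differentiable ℂ G) (hG0 : ∃ z, G z ≠ 0) (hG₀ : Differentiable ℂ G₀)
    (hG₀0 : ∃ z, G₀ z ≠ 0) (hle : ∃ A : ℝ, ∀ z, ‖w z‖ ≤ A * ‖y z‖ ^ e)
    (hge : ∃ δ : ℝ, 0 < δ ∧ ∀ z, δ * ‖y z‖ ^ e ≤ ‖w z‖) (hΛ1 : ∀ z, 1 ≤ Λ z)
    (hΛ : Small y fun z => log (Λ z))
    (h : ∀ z, G₀ z ≠ 0 → ‖E z‖ * ‖w z‖ ^ a ≤ C * ‖G z‖ * ‖w z‖ ^ b * Λ z ^ q) :
    Aux y E G (e * a) (e * b) := by
  obtain ⟨A, hA⟩ := hle
  obtain ⟨δ, hδ, hδw⟩ := hge
  have hEG := hE.fun_mul hG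
  have hEG0 := exists_mul_ne hE hE0 hG hG0
  refine ⟨⟨hE, hE0⟩, ⟨hG, hG0⟩, fun z => G₀ z * (E z * G z),
    fun z => (log (max 1 C) - a * log δ + b * log (max 1 A)) + (q : ℝ) * log (Λ z),
    hG₀.fun_mul hEG, exists_mul_ne hG₀ hG₀0 hEG hEG0,
    (small_const _).add (hΛ.smul q), fun z hz => ?_⟩
  simp only [ne_eq, mul_eq_zero, not_or] at hz
  obtain ⟨hz1, hz2, hz3⟩ := hz
  have hY : 0 < ‖y z‖ := norm_pos_iff.2 (hy.ne_zero z)
  have hYe : 0 < ‖y z‖ ^ e := pow_pos hY e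
  have hW1 := hδw z
  have hW : 0 < ‖w z‖ := lt_of_lt_of_le (mul_pos hδ hYe) hW1
  have hE' : 0 < ‖E z‖ := norm_pos_iff.2 hz2
  have hG' : 0 < ‖G z‖ := norm_pos_iff.2 hz3
  have hΛ0 : 0 < Λ z := lt_of_lt_of_le one_pos (hΛ1 z)
  have hC1 : (0 : ℝ) < max 1 C := lt_of_lt_of_le one_pos (le_max_left _ _)
  have hA1 : (0 : ℝ) < max 1 A := lt_of_lt_of_le one_pos (le_max_left _ _)
  have hW2 : ‖w z‖ ≤ max 1 A * ‖y z‖ ^ e :=
    (hA z).trans (mul_le_mul_of_nonneg_right (le_max_right _ _) hYe.le)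
  have h1 : ‖E z‖ * ‖w z‖ ^ a ≤ max 1 C * ‖G z‖ * ‖w z‖ ^ b * Λ z ^ q := by
    refine (h z hz1).trans ?_
    have h3 : C ≤ max 1 C := le_max_right _ _
    gcongr
  have h3 := Real.log_le_log (by positivity) h1
  rw [Real.log_mul hE'.ne' (by positivity), Real.log_pow,
    Real.log_mul (by positivity) (by positivity), Real.log_mul (by positivity) (by positivity),
    Real.log_mul (by positivity) (by positivity), Real.log_pow, Real.log_pow] at h3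
  have h4 := Real.log_le_log (mul_pos hδ hYe) hW1
  rw [Real.log_mul hδ.ne' hYe.ne', Real.log_pow] at h4
  have h5 := Real.log_le_log hW hW2
  rw [Real.log_mul hA1.ne' hYe.ne', Real.log_pow] at h5
  have h6 := mul_le_mul_of_nonneg_left h4 (Nat.cast_nonneg (α := ℝ) a)
  have h7 := mul_le_mul_of_nonneg_left h5 (Nat.cast_nonneg (α := ℝ) b)
  push_cast
  nlinarith [h3, h6, h7]

end Pool.Agent.H49D
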