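import Pool.Agent.Lib.H49D.B0
import Pool.Agent.Lib.H49D.A3

set_option autoImplicit false

/-!
CHUNK B1 (M/L, adapt `scriptQ_bound`, `scriptQ_order` of `H89T/DF.lean`, without the operators (A)).
The auxiliary function of one factor of large degree.
-/

open MvPolynomial Real MeasureTheory

namespace Pool.Agent.H49D

open Pool.Agent.H89T Pool.Agent.H78G Pool.Agent.H67T Pool.Agent.H53Y

/-- CHUNK B1 (M).  The operators (B) of one curve (`CurveData` of `H89T/DDefs.lean`): the function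
`∏ c, QQ D.y c d (Q c)`.  Copy of `scriptQ_bound` without the factors `PA`: `QQ_le_B` in one chart with
`‖y_c‖ = ‖y‖`, `QQ_le` in the other charts, `1 ≤ Lam`. -/
theorem prodB_bound {n k d : ℕ} (D : CurveData n k) (Q : Fin (n + 1) → MvPolynomial (JV n n) ℂ)
    (hw : ∀ c, HasWt d (Q c)) (hB : ∀ c, PropB (D.a c) (Q c)) :
    ∃ (C : ℝ) (E : ℕ), 0 ≤ C ∧ ∀ z, (∀ j, D.y z j ≠ 0) → D.Fy z ≠ 0 →
      ‖∏ c, QQ D.y c d (Q c) z‖ * ‖D.y z‖ ^ k ≤
        C * ‖D.Fy z‖ * ‖D.y z‖ ^ ((n + 1) * d) * Lam D.y D.Fy k n z ^ E := by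
  classical
  choose CB hCB0 hCB using fun c => QQ_le D c (hw c) (le_refl n)
  choose CC EC hCC0 hCC using fun c => QQ_le_B D c (hw c) (hB c) (le_refl n)
  set K : ℝ := 1 + ∑ c, (CB c + CC c) with hK
  set E1 : ℕ := d + ∑ c, EC c with hE1
  have hle : ∀ c, CB c + CC c ≤ ∑ c, (CB c + CC c) := fun c =>
    Finset.single_le_sum (f := fun c => CB c + CC c)
      (fun c _ => add_nonneg (hCB0 c) (hCC0 c)) (Finset.mem_univ c)
  have hBK : ∀ c, CB c ≤ K := fun c => by linarith [hle c, hCC0 c]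
  have hCK : ∀ c, CC c ≤ K := fun c => by linarith [hle c, hCB0 c]
  have hK0 : 0 ≤ K := (hCB0 0).trans (hBK 0)
  have hEC : ∀ c, EC c ≤ E1 := fun c => by
    have : EC c ≤ ∑ c, EC c :=
      Finset.single_le_sum (f := EC) (fun _ _ => Nat.zero_le _) (Finset.mem_univ c)
    omega
  refine ⟨K ^ (n + 1), E1 * (n + 1), pow_nonneg hK0 _, fun z hz hF => ?_⟩
  set Y : ℝ := ‖D.y z‖ with hY
  set Λ : ℝ := Lam D.y D.Fy k n z with hΛ
  have hΛ1 : 1 ≤ Λ := one_le_Lam _ _ _ _ _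
  have hY0 : 0 ≤ Y := norm_nonneg _
  obtain ⟨c₀, hc₀⟩ : ∃ c₀, ‖D.y z c₀‖ = Y := by
    obtain ⟨c₀, -, h⟩ := Finset.exists_max_image (Finset.univ : Finset (Fin (n + 1)))
      (fun c => ‖D.y z c‖) ⟨0, Finset.mem_univ _⟩
    refine ⟨c₀, le_antisymm (norm_le_pi_norm _ _) ?_⟩
    exact (pi_norm_le_iff_of_nonneg (norm_nonneg _)).2 fun c => h c (Finset.mem_univ c)
  have hB1 : ∀ c, ‖QQ D.y c d (Q c) z‖ ≤ K * Y ^ d * Λ ^ E1 := by
    intro c
    refine (hCB c z hz).trans ?_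
    have h1 : Λ ^ d ≤ Λ ^ E1 := pow_le_pow_right₀ hΛ1 (by omega)
    have h2 : CB c * Y ^ d ≤ K * Y ^ d := mul_le_mul_of_nonneg_right (hBK c) (pow_nonneg hY0 _)
    exact mul_le_mul h2 h1 (by positivity) (by positivity)
  have hC1 : ‖QQ D.y c₀ d (Q c₀) z‖ * Y ^ k ≤ K * ‖D.Fy z‖ * Y ^ d * Λ ^ E1 := by
    refine (hCC c₀ z hz hF hc₀).trans ?_
    have h1 : Λ ^ EC c₀ ≤ Λ ^ E1 := pow_le_pow_right₀ hΛ1 (hEC c₀)
    have h2 : CC c₀ * ‖D.Fy z‖ * Y ^ d ≤ K * ‖D.Fy z‖ * Y ^ d :=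
      mul_le_mul_of_nonneg_right (mul_le_mul_of_nonneg_right (hCK c₀) (norm_nonneg _))
        (pow_nonneg hY0 _)
    exact mul_le_mul h2 h1 (by positivity) (by positivity)
  set G : ℝ := K * Y ^ d * Λ ^ E1 with hG
  have hG0 : 0 ≤ G := by positivity
  have hprod : ‖∏ c, QQ D.y c d (Q c) z‖ = ‖QQ D.y c₀ d (Q c₀) z‖ *
      ∏ c ∈ Finset.univ.erase c₀, ‖QQ D.y c d (Q c) z‖ := by
    rw [norm_prod]
    exact (Finset.mul_prod_erase Finset.univ (fun c => ‖QQ D.y c d (Q c) z‖)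
      (Finset.mem_univ c₀)).symm
  have hrest : ∏ c ∈ Finset.univ.erase c₀, ‖QQ D.y c d (Q c) z‖ ≤ G ^ n := by
    calc ∏ c ∈ Finset.univ.erase c₀, ‖QQ D.y c d (Q c) z‖ ≤ ∏ _c ∈ Finset.univ.erase c₀, G :=
          Finset.prod_le_prod (fun c _ => norm_nonneg _) fun c _ => hB1 c
      _ = G ^ n := by
          rw [Finset.prod_const, Finset.card_erase_of_mem (Finset.mem_univ c₀),
            Finset.card_univ, Fintype.card_fin, Nat.add_sub_cancel]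
  calc ‖∏ c, QQ D.y c d (Q c) z‖ * Y ^ k =
        (‖QQ D.y c₀ d (Q c₀) z‖ * Y ^ k) *
          ∏ c ∈ Finset.univ.erase c₀, ‖QQ D.y c d (Q c) z‖ := by
        rw [hprod]
        ring
    _ ≤ (K * ‖D.Fy z‖ * Y ^ d * Λ ^ E1) * G ^ n :=
        mul_le_mul hC1 hrest (Finset.prod_nonneg fun c _ => norm_nonneg _) (by positivity)
    _ = K ^ (n + 1) * ‖D.Fy z‖ * Y ^ ((n + 1) * d) * Λ ^ (E1 * (n + 1)) := by
        rw [hG, mul_pow, mul_pow, ← pow_mul, ← pow_mul, Nat.mul_comm (n + 1) d, Nat.mul_succ,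
          Nat.mul_succ, pow_add Y, pow_add Λ, pow_succ K]
        ring

/-- CHUNK B1 (S/M).  Copy of the second half of `scriptQ_order` / `DF_order_factor`: in a chart with
`y z c ≠ 0`, `order_propB`, `DF_order_QQ`, `DF_order_prod`. -/
theorem prodB_order {n k d : ℕ} (D : CurveData n k) (Q : Fin (n + 1) → MvPolynomial (JV n n) ℂ)
    (hw : ∀ c, HasWt d (Q c)) (hB : ∀ c, PropB (D.a c) (Q c)) (z : ℂ) (l : ℕ)
    (hl : (l : ℕ∞) ≤ analyticOrderAt D.Fy z) :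
    ((l - n : ℕ) : ℕ∞) ≤ analyticOrderAt (fun z => ∏ c, QQ D.y c d (Q c) z) z := by
  obtain ⟨c, hc⟩ : ∃ c, D.y z c ≠ 0 := by
    by_contra hcon
    push Not at hcon
    exact D.hy.ne_zero z (funext hcon)
  have hy := D.hy.diff
  have hch : ∀ b, AnalyticAt ℂ (fun w => ch c D.y w b) z := fun b => analyticAt_ch hy c hc b
  have hnear : ∀ᶠ w in nhds z, D.y w c ≠ 0 := (hy c).continuous.continuousAt.eventually_ne hc
  have hmF : (l : ℕ∞) ≤ analyticOrderAt (fun w => ev (D.a c) (ch c D.y w)) z := by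
    have h1 : (fun w => ev (D.a c) (ch c D.y w)) =ᶠ[nhds z]
        fun w => D.Fy w * (D.y w c ^ k)⁻¹ := by
      filter_upwards [hnear] with w hw
      rw [D.hFc c w hw, Fc, div_eq_mul_inv]
    rw [analyticOrderAt_congr h1]
    exact le_order_mul hl (D.hF.analyticAt z)
      ((((hy c).analyticAt z).pow k).inv (pow_ne_zero k hc))
  have hB1 : ((l - n : ℕ) : ℕ∞) ≤ analyticOrderAt (QQ D.y c d (Q c)) z :=
    DF_order_QQ hy c (hw c) hc (order_propB (hB c) hch hmF)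
  refine hB1.trans ?_
  exact DF_order_prod (f := fun c w => QQ D.y c d (Q c) w) Finset.univ (Finset.mem_univ c)
    fun i _ => (QQ_diff hy i d (Q i)).analyticAt z

/-- CHUNK B1 (M).  Let `s = sb i`.  The data `D' : CurveData (m s) (dg i)` with `y := D.w s`,
`Fy := D.φ i`, `a c := cfF (dg i) c (D.F i)`: `hy` from `D.hw` and `D.hwge` (`w ≠ 0`, because `y ≠ 0`),
`hF0 := D.hF0 i`, `hy0 := D.hw0 s`, `hFc` from `ev_cf` (`H89T/Hom.lean`), `hFle`: a form of degree `k`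
satisfies `‖F (w)‖ ≤ A ‖w‖ ^ k` (see the construction of `CurveData` in `H89T/DP2.lean`,
`H89T/DP3.lean`).  Take `E = ∏ c, QQ (D.w s) c dB (Q c)`; it is not identically zero (`QQ_eq` at the
points of `h`, `exists_prod_ne`).  `aux_of_bound` with `w := D.w s`, `Λ := Lam ..`
(`one_le_Lam`, `small_Lam`), `G₀ = D.φ i * ∏ j, D.w s z j`, `a := dg i`,
`b := (m s + 1) * dB`. -/
theorem exists_large {N : ℕ} {β : Type} {m : β → ℕ} {ι : Type} [Fintype ι] {sb : ι → β}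
    {dg : ι → ℕ} (D : CurveY N m ι sb dg) (i : ι) (dB : ℕ)
    (h : ∀ c : Fin (m (sb i) + 1), ∃ Q : MvPolynomial (JV (m (sb i)) (m (sb i))) ℂ,
      HasWt dB Q ∧ PropB (cfF (dg i) c (D.F i)) Q ∧
        ∃ z, D.w (sb i) z c ≠ 0 ∧ eval (jetf (m (sb i)) (ch c (D.w (sb i))) z) Q ≠ 0) :
    ∃ E : ℂ → ℂ, Aux D.y E (D.φ i) (D.eg (sb i) * dg i)
        (D.eg (sb i) * ((m (sb i) + 1) * dB)) ∧
      ∀ (z : ℂ) (l : ℕ), (l : ℕ∞) ≤ analyticOrderAt (D.φ i) z →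
        ((l - m (sb i) : ℕ) : ℕ∞) ≤ analyticOrderAt E z := by
  have hyw : IsHol (D.w (sb i)) := by
    refine ⟨D.hw _, fun z hz => ?_⟩
    obtain ⟨δ, hδ, h1⟩ := D.hwge (sb i)
    have h2 := h1 z
    rw [hz, norm_zero] at h2
    have h3 : 0 < ‖D.y z‖ := norm_pos_iff.2 (D.hy.ne_zero z)
    have h4 : 0 < δ * ‖D.y z‖ ^ D.eg (sb i) := by positivity
    linarith
  choose Q hQw hQB hQ0 using h
  obtain ⟨C, q, hC, hb⟩ := prodB_bound
    (mkData (D.hF i) hyw (D.hF0 i) (D.hw0 (sb i))) Q hQw hQB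
  have hφ : Differentiable ℂ (D.φ i) := differentiable_eval (D.hw (sb i)) (D.F i)
  have hpd : Differentiable ℂ fun z => ∏ j, D.w (sb i) z j :=
    Differentiable.fun_finsetProd fun j _ => D.hw (sb i) j
  have hpn : ∃ z, ∏ j, D.w (sb i) z j ≠ 0 :=
    exists_prod_ne (f := fun j z => D.w (sb i) z j) Finset.univ (fun j _ => D.hw (sb i) j)
      fun j _ => D.hw0 (sb i) j
  refine ⟨fun z => ∏ c, QQ (D.w (sb i)) c dB (Q c) z, ?_, ?_⟩
  · refine aux_of_bound (w := D.w (sb i)) (G₀ := fun z => D.φ i z * ∏ j, D.w (sb i) z j)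
      (Λ := Lam (D.w (sb i)) (D.φ i) (dg i) (m (sb i))) (C := C) (q := q) D.hy ?_ ?_ hφ
      (D.hF0 i) (hφ.mul hpd) (exists_mul_ne hφ (D.hF0 i) hpd hpn) (D.hwle (sb i))
      (D.hwge (sb i)) (fun z => one_le_Lam _ _ _ _ _) ?_ ?_
    · exact Differentiable.fun_finsetProd fun c _ => QQ_diff hyw.diff c dB (Q c)
    · refine exists_prod_ne (f := fun c z => QQ (D.w (sb i)) c dB (Q c) z) Finset.univ
        (fun c _ => QQ_diff hyw.diff c dB (Q c)) fun c _ => ?_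
      obtain ⟨z, h1, h2⟩ := hQ0 c
      refine ⟨z, ?_⟩
      rw [QQ_eq hyw.diff c (hQw c) h1]
      exact mul_ne_zero (pow_ne_zero _ h1) h2
    · exact small_Lam D.hy (mkData (D.hF i) hyw (D.hF0 i) (D.hw0 (sb i))) (D.hwle (sb i))
        (m (sb i))
    · intro z hz
      have h1 : ∀ j, D.w (sb i) z j ≠ 0 := fun j =>
        Finset.prod_ne_zero_iff.1 (right_ne_zero_of_mul hz) j (Finset.mem_univ j)
      exact hb z h1 (left_ne_zero_of_mul hz)
  · intro z l hl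
    exact prodB_order (mkData (D.hF i) hyw (D.hF0 i) (D.hw0 (sb i))) Q hQw hQB z l hl

end Pool.Agent.H49D
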