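import Pool.Agent.Lib.H53Y.D0
import Pool.Agent.Lib.H78G.D1
import Pool.Agent.Lib.H78G.D3C
import Pool.Agent.Lib.H78G.D4
import Pool.Agent.Lib.H78G.D5B
import Pool.Agent.Lib.H78G.D7A
import Pool.Agent.Lib.H89T.DF
import Pool.Agent.Lib.H89T.DA3
import Pool.Agent.Lib.H89T.DG

set_option autoImplicit false

/-!
# H49D: module D (one curve) of H53Y (second main theorem with total truncation level one, all types)

Definitions.  `Small y h`: `h` is bounded above by a function all of whose averages over circles are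
at most a constant times the error term.  `Aux y E G κ B`: the auxiliary function `E` satisfies
`|E| |y| ^ κ ≤ |G| |y| ^ B exp h` outside the zeros of an entire function, `h` small.
-/

open MvPolynomial Real MeasureTheory

namespace Pool.Agent.H49D

open Pool.Agent.H89T Pool.Agent.H78G Pool.Agent.H67T Pool.Agent.H53Y

/-- `h` is bounded above by a circle integrable function with small averages. -/
def Small {N : ℕ} (y : ℂ → Fin N → ℂ) (h : ℂ → ℝ) : Prop :=
  ∃ g : ℂ → ℝ, (∀ z, h z ≤ g z) ∧ (∀ r, CircleIntegrable g 0 r) ∧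
    ∃ C : ℝ, 0 ≤ C ∧ ∀ r R : ℝ, 1 ≤ r → r < R → circleAverage g 0 r ≤ C * err y r R

/-- The auxiliary function `E` for the function `G`. -/
def Aux {N : ℕ} (y : ℂ → Fin N → ℂ) (E G : ℂ → ℂ) (κ B : ℕ) : Prop :=
  (Differentiable ℂ E ∧ ∃ z, E z ≠ 0) ∧ (Differentiable ℂ G ∧ ∃ z, G z ≠ 0) ∧
    ∃ (G₀ : ℂ → ℂ) (h : ℂ → ℝ), Differentiable ℂ G₀ ∧ (∃ z, G₀ z ≠ 0) ∧ Small y h ∧
      ∀ z, G₀ z ≠ 0 → log ‖E z‖ + κ * log ‖y z‖ ≤ log ‖G z‖ + B * log ‖y z‖ + h z

section QM

variable {N : ℕ} {β : Type} [Fintype β] [DecidableEq β] {m : β → ℕ} {ι : Type} [Fintype ι]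
variable {sb : ι → β} {dg : ι → ℕ} {n r : ℕ}

/-- The weight of a monomial in the jets of the block `s`. -/
def wtb (e : Co m ≃ Fin n) (s : β) (μ : JV n r →₀ ℕ) : ℕ :=
  ∑ p : JV n r, if (e.symm p.1).1 = s then ((p.2 : ℕ) + 1) * μ p else 0

/-- The entire function `∏ s, (w s)_0 ^ M * P (jet of all affine coordinates in the charts 0)`, for `P`
of weight at most `M`. -/
noncomputable def QM (D : CurveY N m ι sb dg) (e : Co m ≃ Fin n) (M : ℕ)
    (P : MvPolynomial (JV n r) ℂ) (z : ℂ) : ℂ :=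
  ∑ μ ∈ P.support, P.coeff μ * (∏ s, D.w s z 0 ^ (M - wtb e s μ)) *
    ∏ p : JV n r, eta (D.w (e.symm p.1).1) 0 (e.symm p.1).2 (p.2 : ℕ) z ^ μ p

end QM

end Pool.Agent.H49D
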