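import Pool.Agent.Lib.H49D.DD

set_option autoImplicit false

/-!
CHUNK O1 (M, adapt `order_propA` of `H89T/DA3.lean`).  The order of the operator at crossings and tangencies.
-/

open MvPolynomial Real MeasureTheory

namespace Pool.Agent.H49D

open Pool.Agent.H89T Pool.Agent.H78G Pool.Agent.H67T Pool.Agent.H53Y

/-- CHUNK O1 (S).  The value at a jet (`uu_map` as in `eval_uR`; `bj` of the variables). -/
theorem eval_us {β : Type} [DecidableEq β] {m : β → ℕ} {n r : ℕ} {ι : Type} {sb : ι → β}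
    {dg : ι → ℕ} (e : Co m ≃ Fin n) (a : Cf m sb dg → ℂ) (i : ι) (l : ℕ) (ξ : JV n r → ℂ) :
    eval ξ (us e a i l) = eval (bj e ξ (sb i)) (uR (fun α => a ⟨i, α⟩) l) := by
  unfold us
  rw [uu_map, eval_uR]
  simp only [eval_C]
  congr 1
  funext p
  simp [bj]

/-- CHUNK O1 (S/M).  The generator `u 0` at a zero (order at least one is enough): copy of
`order_uR_xhat`, only the coordinates of order `0` matter. -/
theorem order_uR_xhat_zero {n k r : ℕ} (a : Idx n k → ℂ) {f : ℂ → Fin n → ℂ} {z₀ : ℂ}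
    (hf : ∀ b, AnalyticAt ℂ (fun w => f w b) z₀) (h0 : ev a (f z₀) = 0) :
    (r : ℕ∞) ≤ analyticOrderAt (fun z => eval (shift (z₀ - z) (jetf r f z)) (uR a 0)) z₀ := by
  have hone0 : ((0 : Fin (r + 1)) : ℕ) = 0 := rfl
  set v : ℂ → JV n r → ℂ := fun z p => if (p.2 : ℕ) = 0 then f z₀ p.1 else
    shift (z₀ - z) (jetf r f z) p with hv
  have hval : ∀ z, eval (v z) (uR a 0) = 0 := by
    intro z
    rw [eval_uR, uu_zero]
    exact h0
  have hvan : ∀ p, AnalyticAt ℂ (fun z => v z p) z₀ := by
    intro p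
    by_cases hp : (p.2 : ℕ) = 0
    · simp only [hv, hp, if_true]
      exact analyticAt_const
    · simp only [hv, hp, if_false]
      exact analyticAt_xhat r hf p
  have h5 := le_order_eval_sub (uR a 0) (z₀ := z₀) (m := (r : ℕ∞))
    (x := fun z => shift (z₀ - z) (jetf r f z)) (y := v) (analyticAt_xhat r hf) hvan ?_
  · simp only [hval, sub_zero] at h5
    exact h5
  · rintro ⟨b, l⟩
    rcases Nat.eq_zero_or_pos (l : ℕ) with hl | hl
    · have hl0 : l = 0 := Fin.ext (by rw [hone0]; omega)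
      subst hl0
      have h6 := xhat_zero r hf b
      have h7 : (fun z => shift (z₀ - z) (jetf r f z) (b, 0) - v z (b, 0)) =
          fun z => shift (z₀ - z) (jetf r f z) (b, 0) - f z₀ b := by
        funext z
        simp [hv]
      rw [h7]
      refine le_trans ?_ h6
      exact_mod_cast Nat.le_succ r
    · have h7 : (fun z => shift (z₀ - z) (jetf r f z) (b, l) - v z (b, l)) =
          fun _ => 0 := by
        funext z
        have h8 : ¬ ((l : ℕ) = 0) := by omega
        simp only [hv, h8, if_false, sub_self]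
      rw [h7, order_zero_fun]
      exact le_top

theorem o1_gen {n r : ℕ} {P g₁ g₂ : MvPolynomial (JV n r) ℂ} (hr : 1 ≤ r)
    (hP : ∀ l < r, (NN n r ℂ)^[l] P ∈ Ideal.span {g₁, g₂}) {f : ℂ → Fin n → ℂ} {z₀ : ℂ}
    (hf : ∀ b, AnalyticAt ℂ (fun w => f w b) z₀)
    (h1 : (r : ℕ∞) ≤ analyticOrderAt (fun z => eval (shift (z₀ - z) (jetf r f z)) g₁) z₀)
    (h2 : (r : ℕ∞) ≤ analyticOrderAt (fun z => eval (shift (z₀ - z) (jetf r f z)) g₂) z₀) :
    (r : ℕ∞) ≤ analyticOrderAt (fun z => eval (jetf r f z) P) z₀ := by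
  have hx := analyticAt_xhat r hf
  have hev : ∀ Q : MvPolynomial (JV n r) ℂ,
      AnalyticAt ℂ (fun z => eval (shift (z₀ - z) (jetf r f z)) Q) z₀ :=
    fun Q => analyticAt_eval Q hx
  have hlin : AnalyticAt ℂ (fun z : ℂ => z - z₀) z₀ := analyticAt_id.sub analyticAt_const
  obtain ⟨R, hR⟩ := eval_shift P r
  have h3 : (fun z => eval (jetf r f z) P) = (fun z => ∑ i ∈ Finset.range r,
      (eval (shift (z₀ - z) (jetf r f z)) ((NN n r ℂ)^[i] P) *
        ((z - z₀) ^ i / (i.factorial : ℂ)))) +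
      fun z => (z - z₀) ^ r *
        (R.map (eval (shift (z₀ - z) (jetf r f z)))).eval (z - z₀) := by
    funext z
    have h4 := hR (z - z₀) (shift (z₀ - z) (jetf r f z))
    rw [shift_shift] at h4
    have h5 : z - z₀ + (z₀ - z) = 0 := by ring
    rw [h5, shift_zero] at h4
    rw [h4, Pi.add_apply]
    congr 1
    exact Finset.sum_congr rfl fun i _ => mul_comm _ _
  rw [h3]
  refine (le_min ?_ ?_).trans le_analyticOrderAt_add
  · apply le_order_sum
    intro i hi
    have h6 : (r : ℕ∞) ≤ analyticOrderAt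
        (fun z => eval (shift (z₀ - z) (jetf r f z)) ((NN n r ℂ)^[i] P)) z₀ := by
      obtain ⟨A, B, hAB⟩ := Ideal.mem_span_pair.1 (hP i (Finset.mem_range.1 hi))
      rw [← hAB]
      simp only [map_add, map_mul]
      refine (le_min ?_ ?_).trans le_analyticOrderAt_add
      · have := le_order_mul h1 (hev _) (hev A)
        simpa only [mul_comm] using this
      · have := le_order_mul h2 (hev _) (hev B)
        simpa only [mul_comm] using this
    exact le_order_mul h6 (hev _) ((hlin.pow i).div_const)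
  · have h7 : AnalyticAt ℂ (fun z => (R.map (eval (shift (z₀ - z) (jetf r f z)))).eval (z - z₀))
        z₀ := by
      have h8 : (fun z => (R.map (eval (shift (z₀ - z) (jetf r f z)))).eval (z - z₀)) =
          fun z => ∑ i ∈ R.support, eval (shift (z₀ - z) (jetf r f z)) (R.coeff i) *
            (z - z₀) ^ i := by
        funext z
        rw [Polynomial.eval_map, Polynomial.eval₂_eq_sum, Polynomial.sum_def]
      rw [h8]
      apply Finset.analyticAt_fun_sum
      intro i _
      exact (hev _).mul (hlin.pow i)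
    refine le_order_mul ?_ (hlin.pow r) h7
    have h9 := analyticOrderAt_pow hlin r
    have h10 : analyticOrderAt (fun z : ℂ => (z - z₀) ^ r) z₀ =
        analyticOrderAt ((fun z : ℂ => z - z₀) ^ r) z₀ := rfl
    rw [h10, h9]
    have h11 : analyticOrderAt (fun z : ℂ => z - z₀) z₀ = 1 := analyticOrderAt_id_sub_const_self
    rw [h11]
    simp

/-- CHUNK O1 (M).  Proof of `order_propA` word by word: `hP l hl i i'` gives
`NN^[l] P = A * us e a i 0 + B * us e a i 1` (tangency, `i = i'`) or
`A * us e a i 0 + B * us e a i' 0` (crossing), and the generators have order at least `r` on the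
transported jets: `eval_us`, the block of the transported jet of `f` is the transported jet of the
block of `f`, `order_uR_xhat`, `order_uR_xhat_zero`. -/
theorem order_propG {β : Type} [DecidableEq β] {m : β → ℕ} {n r : ℕ} {ι : Type} [DecidableEq ι]
    {sb : ι → β} {dg : ι → ℕ} (e : Co m ≃ Fin n) {a : Cf m sb dg → ℂ}
    {P : MvPolynomial (JV n r) ℂ} (hr : 1 ≤ r) (hP : PropG e a r P) {f : ℂ → Fin n → ℂ} {z₀ : ℂ}
    (hf : ∀ b, AnalyticAt ℂ (fun w => f w b) z₀)
    (h : (∃ i, 2 ≤ analyticOrderAt (fun w => fv e a (f w) i) z₀) ∨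
      ∃ i i', i ≠ i' ∧ fv e a (f z₀) i = 0 ∧ fv e a (f z₀) i' = 0) :
    (r : ℕ∞) ≤ analyticOrderAt (fun z => eval (jetf r f z) P) z₀ := by
  have hfs : ∀ s b, AnalyticAt ℂ (fun w => bx e (f w) s b) z₀ := fun s b => hf _
  have hus : ∀ i l, (fun z => eval (shift (z₀ - z) (jetf r f z)) (us e a i l)) =
      fun z => eval (shift (z₀ - z) (jetf r (fun w => bx e (f w) (sb i)) z)) (uR (fun α => a ⟨i, α⟩) l) := by
    intro i l
    funext z
    rw [eval_us]
    rfl
  rcases h with ⟨i, h2⟩ | ⟨i, i', hne, h1, h2⟩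
  · refine o1_gen (g₁ := us e a i 0) (g₂ := us e a i 1) hr (fun l hl => ?_) hf ?_ ?_
    · have h3 := hP l hl i i
      rwa [IG, if_pos rfl] at h3
    · rw [hus]
      exact order_uR_xhat _ (hfs (sb i)) h2 hr 0 (by norm_num)
    · rw [hus]
      exact order_uR_xhat _ (hfs (sb i)) h2 hr 1 (by norm_num)
  · refine o1_gen (g₁ := us e a i 0) (g₂ := us e a i' 0) hr (fun l hl => ?_) hf ?_ ?_
    · have h3 := hP l hl i i'
      rwa [IG, if_neg hne] at h3
    · rw [hus]
      exact order_uR_xhat_zero _ (hfs (sb i)) h1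
    · rw [hus]
      exact order_uR_xhat_zero _ (hfs (sb i')) h2

end Pool.Agent.H49D
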