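import Pool.Agent.Lib.H49D.DD

set_option autoImplicit false

/-!
CHUNK P1 (M, adapt `QQ_diff`, `QQ_eq` of `H89T/DC.lean`).  The function `QM`.
-/

open MvPolynomial Real MeasureTheory

namespace Pool.Agent.H49D

open Pool.Agent.H89T Pool.Agent.H78G Pool.Agent.H67T Pool.Agent.H53Y

variable {N : ℕ} {β : Type} [Fintype β] [DecidableEq β] {m : β → ℕ} {ι : Type} [Fintype ι]
variable {sb : ι → β} {dg : ι → ℕ} {n r : ℕ}

/-- CHUNK P1 (S).  As `QQ_diff` (`eta_diff`). -/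
theorem QM_diff (D : CurveY N m ι sb dg) (e : Co m ≃ Fin n) (M : ℕ)
    (P : MvPolynomial (JV n r) ℂ) : Differentiable ℂ (QM D e M P) := by
  unfold QM
  refine Differentiable.fun_sum fun μ _ => ?_
  refine ((Differentiable.fun_finsetProd fun s _ => (D.hw s 0).pow _).const_mul _).mul ?_
  exact Differentiable.fun_finsetProd fun p _ => (eta_diff (D.hw _) 0 _ _).pow _

/-- CHUNK P1 (S).  Every `p : JV n r` belongs to one block: `∑ s, wtb e s μ = wt μ`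
(`Finset.sum_comm`, `Finset.sum_ite_eq`), so `wtb e s μ ≤ wt μ`. -/
theorem wtb_le (e : Co m ≃ Fin n) (s : β) (μ : JV n r →₀ ℕ) : wtb e s μ ≤ wt μ := by
  unfold wtb wt
  refine Finset.sum_le_sum fun p _ => ?_
  split_ifs
  · exact le_rfl
  · exact Nat.zero_le _

/-- CHUNK P1 (M).  As `QQ_eq`: `jetf r (D.f e) z p = eta (D.w (e.symm p.1).1) 0 (e.symm p.1).2 p.2 z /
D.w (e.symm p.1).1 z 0 ^ (p.2 + 1)` (`iteratedDeriv_ch`; `D.f e w b` is by definition
`ch 0 (D.w (e.symm b).1) w (e.symm b).2`), and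
`∏ p, D.w (e.symm p.1).1 z 0 ^ ((p.2 + 1) * μ p) = ∏ s, D.w s z 0 ^ wtb e s μ`
(`wtb` is a sum of `if (e.symm p.1).1 = s then .. else 0`: `Finset.prod_pow_eq_pow_sum`,
`Finset.prod_comm`, `Finset.prod_ite_eq`, or `Finset.prod_fiberwise`), `wtb e s μ ≤ M`. -/
theorem QM_eq (D : CurveY N m ι sb dg) (e : Co m ≃ Fin n) {M : ℕ} {P : MvPolynomial (JV n r) ℂ}
    (hP : HasWt M P) {z : ℂ} (hz : ∀ s, D.w s z 0 ≠ 0) :
    QM D e M P z = (∏ s, D.w s z 0 ^ M) * eval (jetf r (D.f e) z) P := by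
  unfold QM
  rw [eval_eq', Finset.mul_sum]
  refine Finset.sum_congr rfl fun μ hμ => ?_
  have h0 : ∏ s, D.w s z 0 ^ wtb e s μ =
      ∏ p : JV n r, D.w (e.symm p.1).1 z 0 ^ (((p.2 : ℕ) + 1) * μ p) := by
    unfold wtb
    rw [Finset.prod_congr rfl fun s _ => (Finset.prod_pow_eq_pow_sum Finset.univ
      (fun p : JV n r => if (e.symm p.1).1 = s then ((p.2 : ℕ) + 1) * μ p else 0)
      (D.w s z 0)).symm, Finset.prod_comm]
    refine Finset.prod_congr rfl fun p _ => ?_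
    rw [Finset.prod_eq_single (e.symm p.1).1]
    · rw [if_pos rfl]
    · intro s _ hs
      rw [if_neg (Ne.symm hs), pow_zero]
    · intro h
      exact absurd (Finset.mem_univ _) h
  have h1 : ∏ p : JV n r, jetf r (D.f e) z p ^ μ p =
      (∏ p : JV n r, eta (D.w (e.symm p.1).1) 0 (e.symm p.1).2 (p.2 : ℕ) z ^ μ p) /
        ∏ s, D.w s z 0 ^ wtb e s μ := by
    rw [h0, ← Finset.prod_div_distrib]
    refine Finset.prod_congr rfl fun p _ => ?_
    have h2 := iteratedDeriv_ch (D.hw (e.symm p.1).1) 0 (e.symm p.1).2 (p.2 : ℕ)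
      (hz (e.symm p.1).1)
    have h3 : jetf r (D.f e) z p = eta (D.w (e.symm p.1).1) 0 (e.symm p.1).2 (p.2 : ℕ) z /
        D.w (e.symm p.1).1 z 0 ^ ((p.2 : ℕ) + 1) := h2
    rw [h3, div_pow, ← pow_mul]
  rw [h1]
  have h2 : ∏ s, D.w s z 0 ^ M =
      (∏ s, D.w s z 0 ^ (M - wtb e s μ)) * ∏ s, D.w s z 0 ^ wtb e s μ := by
    rw [← Finset.prod_mul_distrib]
    refine Finset.prod_congr rfl fun s _ => ?_
    rw [← pow_add, Nat.sub_add_cancel ((wtb_le e s μ).trans (hP μ hμ))]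
  rw [h2]
  have h3 : ∏ s, D.w s z 0 ^ wtb e s μ ≠ 0 :=
    Finset.prod_ne_zero_iff.mpr fun s _ => pow_ne_zero _ (hz s)
  field_simp

end Pool.Agent.H49D
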