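import Pool.Agent.Lib.H49D.P1
import Pool.Agent.Lib.H49D.B0
import Pool.Agent.Lib.H49D.A3

set_option autoImplicit false

/-!
CHUNK P2 (M, adapt `QQ_leG` of `H78G/D2.lean`).  The growth of the operator.
-/

open MvPolynomial Real MeasureTheory

namespace Pool.Agent.H49D

open Pool.Agent.H89T Pool.Agent.H78G Pool.Agent.H67T Pool.Agent.H53Y

variable {N : ℕ} {β : Type} [Fintype β] [DecidableEq β] {m : β → ℕ} {ι : Type} [Fintype ι]
variable {sb : ι → β} {dg : ι → ℕ} {n r : ℕ}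

theorem p2_one_le {κ : Type} (t : Finset κ) {f : κ → ℝ} (hf : ∀ i, 1 ≤ f i) :
    1 ≤ ∏ i ∈ t, f i :=
  Finset.prod_induction f (fun x => 1 ≤ x)
    (fun _ _ ha hb => one_le_mul_of_one_le_of_one_le ha hb) le_rfl (fun i _ => hf i)

theorem p2_single_le {κ : Type} [Fintype κ] [DecidableEq κ] {f : κ → ℝ} (hf : ∀ i, 1 ≤ f i)
    (i : κ) : f i ≤ ∏ j, f j := by
  rw [← Finset.mul_prod_erase Finset.univ f (Finset.mem_univ i)]
  exact le_mul_of_one_le_right (zero_le_one.trans (hf i)) (p2_one_le _ hf)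

/-- CHUNK P2 (M).  Let `Λ_s = LamG (D.w s) θ₀ r` with the empty family `θ₀ : Fin 0 → ..`.  At a point
where all `D.w s z j ≠ 0`: `‖jetf r (D.f e) z p‖ ≤ Λ_s (z) * (‖w_s‖ / ‖w_s 0‖)`, `s = (e.symm p.1).1`
(`D2_norm_jetf_le` with `c = 0`, applied to `((e.symm p.1).2, p.2) : JV (m s) r`), and this is at most
`T * S`, `T = ∏ s, Λ_s`, `S = ∏ s, ‖w_s‖ / ‖w_s 0‖` (all factors are at least `1`: `one_le_LamG`,
`norm_coord_pos`; `Finset.single_le_prod'` is for monoids, use `Finset.prod_le_prod` or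
`Finset.mul_prod_erase`).  `norm_eval_le hP` and `QM_eq` give
`‖QM‖ ≤ C * (∏ s, ‖w_s‖) ^ M * (∏ s, Λ_s) ^ M`. -/
theorem QM_le (D : CurveY N m ι sb dg) (e : Co m ≃ Fin n) {M : ℕ} {P : MvPolynomial (JV n r) ℂ}
    (hP : HasWt M P) :
    ∃ C : ℝ, 1 ≤ C ∧ ∀ z, (∀ s j, D.w s z j ≠ 0) →
      ‖QM D e M P z‖ ≤ C * (∏ s, ‖D.w s z‖) ^ M *
        (∏ s, LamG (D.w s) (fun _ : Fin 0 => (0 : Fin (m s + 1) → ℂ)) r z) ^ M := by
  obtain ⟨C, hC, h⟩ := norm_eval_le hP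
  refine ⟨max 1 C, le_max_left _ _, fun z hz => ?_⟩
  set Λ : β → ℝ := fun s => LamG (D.w s) (fun _ : Fin 0 => (0 : Fin (m s + 1) → ℂ)) r z with hΛ
  set S : β → ℝ := fun s => ‖D.w s z‖ / ‖D.w s z 0‖ with hS
  have hΛ1 : ∀ s, 1 ≤ Λ s := fun s => one_le_LamG _ _ _ _
  have hS1 : ∀ s, 1 ≤ S s := fun s => norm_coord_pos _ _ _ (hz s 0)
  have hj : ∀ p, ‖jetf r (D.f e) z p‖ ≤ (∏ s, Λ s) * ∏ s, S s := by
    intro p
    have h2 : ‖jetf r (ch 0 (D.w (e.symm p.1).1)) z ((e.symm p.1).2, p.2)‖ ≤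
        Λ (e.symm p.1).1 * S (e.symm p.1).1 :=
      D2_norm_jetf_le (D.w (e.symm p.1).1)
        (fun _ : Fin 0 => (0 : Fin (m (e.symm p.1).1 + 1) → ℂ)) le_rfl 0 z (hz _)
        ((e.symm p.1).2, p.2)
    refine le_trans h2 ?_
    exact mul_le_mul (p2_single_le hΛ1 _) (p2_single_le hS1 _)
      (zero_le_one.trans (hS1 _)) (zero_le_one.trans (p2_one_le _ hΛ1))
  have h1 := h (jetf r (D.f e) z) (∏ s, Λ s) (∏ s, S s) (p2_one_le _ hΛ1) (p2_one_le _ hS1) hj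
  rw [QM_eq D e hP (fun s => hz s 0), norm_mul, norm_prod]
  have hw0 : ∀ s, 0 < ‖D.w s z 0‖ := fun s => norm_pos_iff.mpr (hz s 0)
  have e1 : ∏ s, ‖D.w s z 0 ^ M‖ = (∏ s, ‖D.w s z 0‖) ^ M := by
    rw [← Finset.prod_pow]
    exact Finset.prod_congr rfl fun s _ => norm_pow _ _
  have e2 : (∏ s, ‖D.w s z 0‖) * ∏ s, S s = ∏ s, ‖D.w s z‖ := by
    rw [← Finset.prod_mul_distrib]
    exact Finset.prod_congr rfl fun s _ => mul_div_cancel₀ _ (hw0 s).ne'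
  rw [e1]
  have hp0 : 0 ≤ (∏ s, ‖D.w s z 0‖) ^ M := by
    refine pow_nonneg (Finset.prod_nonneg fun s _ => (hw0 s).le) _
  have hT0 : 0 ≤ (∏ s, Λ s) ^ M := pow_nonneg (zero_le_one.trans (p2_one_le _ hΛ1)) _
  have hW0 : 0 ≤ (∏ s, ‖D.w s z‖) ^ M :=
    pow_nonneg (Finset.prod_nonneg fun s _ => norm_nonneg _) _
  calc (∏ s, ‖D.w s z 0‖) ^ M * ‖eval (jetf r (D.f e) z) P‖
      ≤ (∏ s, ‖D.w s z 0‖) ^ M * (C * (∏ s, Λ s) ^ M * (∏ s, S s) ^ M) :=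
        mul_le_mul_of_nonneg_left h1 hp0
    _ = C * (∏ s, ‖D.w s z‖) ^ M * (∏ s, Λ s) ^ M := by
        rw [← e2, mul_pow]
        ring
    _ ≤ max 1 C * (∏ s, ‖D.w s z‖) ^ M * (∏ s, Λ s) ^ M := by
        refine mul_le_mul_of_nonneg_right ?_ hT0
        exact mul_le_mul_of_nonneg_right (le_max_right _ _) hW0

/-- CHUNK P2 (M).  `G₀ = QM * ∏ s, ∏ j, D.w s z j` (`exists_mul_ne`, `exists_prod_ne`; `QM` is not
identically zero by `QM_eq` at the point of `h0`).  Take logarithms in `QM_le`: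
`log ‖QM‖ ≤ log C + M ∑ log ‖w_s‖ + M ∑ log Λ_s`, and `log ‖w_s‖ ≤ log A_s + eg s * log ‖y‖`
(`D.hwle`, `A_s ≥ 1` w.l.o.g.).  `small_LamG` (the condition on the empty family is vacuous). -/
theorem aux_QM (D : CurveY N m ι sb dg) (e : Co m ≃ Fin n) {M : ℕ} {P : MvPolynomial (JV n r) ℂ}
    (hP : HasWt M P)
    (h0 : ∃ z, (∀ s, D.w s z 0 ≠ 0) ∧ eval (jetf r (D.f e) z) P ≠ 0) :
    Aux D.y (QM D e M P) (fun _ => 1) 0 (M * ∑ s, D.eg s) := by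
  obtain ⟨C, hC, h⟩ := QM_le D e hP
  choose A hA using D.hwle
  have hd := QM_diff D e M P
  have hne : ∃ z, QM D e M P z ≠ 0 := by
    obtain ⟨z, hz, hz'⟩ := h0
    refine ⟨z, ?_⟩
    rw [QM_eq D e hP hz]
    exact mul_ne_zero (Finset.prod_ne_zero_iff.mpr fun s _ => pow_ne_zero _ (hz s)) hz'
  have hwd : Differentiable ℂ fun z => ∏ s, ∏ j, D.w s z j :=
    Differentiable.fun_finsetProd fun s _ => Differentiable.fun_finsetProd fun j _ => D.hw s j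
  have hwne : ∃ z, ∏ s, ∏ j, D.w s z j ≠ 0 :=
    exists_prod_ne Finset.univ
      (fun s _ => Differentiable.fun_finsetProd fun j _ => D.hw s j)
      (fun s _ => exists_prod_ne Finset.univ (fun j _ => D.hw s j) (fun j _ => D.hw0 s j))
  refine ⟨⟨hd, hne⟩, ⟨differentiable_const _, 0, one_ne_zero⟩,
    fun z => QM D e M P z * ∏ s, ∏ j, D.w s z j,
    fun z => (log C + M * ∑ s, log (max 1 (A s))) +
      (M : ℝ) * ∑ s, log (LamG (D.w s) (fun _ : Fin 0 => (0 : Fin (m s + 1) → ℂ)) r z),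
    hd.fun_mul hwd, exists_mul_ne hd hne hwd hwne,
    (small_const _).add (Small.smul M (Small.sum Finset.univ fun s _ =>
      small_LamG D.hy (D.hw s) (D.hw0 s) (D.hwle s) (fun i => i.elim0) r)), fun z hz => ?_⟩
  rw [mul_ne_zero_iff] at hz
  obtain ⟨hz1, hz2⟩ := hz
  have hz3 : ∀ s j, D.w s z j ≠ 0 := fun s j =>
    Finset.prod_ne_zero_iff.mp (Finset.prod_ne_zero_iff.mp hz2 s (Finset.mem_univ s)) j
      (Finset.mem_univ j)
  have h1 := h z hz3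
  have hw : ∀ s, 0 < ‖D.w s z‖ := fun s =>
    lt_of_lt_of_le (norm_pos_iff.mpr (hz3 s 0)) (norm_le_pi_norm (D.w s z) 0)
  have hL : ∀ s, 0 < LamG (D.w s) (fun _ : Fin 0 => (0 : Fin (m s + 1) → ℂ)) r z := fun s =>
    zero_lt_one.trans_le (one_le_LamG _ _ _ _)
  have hY : 0 < ‖D.y z‖ := norm_pos_iff.mpr (D.hy.ne_zero z)
  have hC0 : 0 < C := zero_lt_one.trans_le hC
  have hP1 : (0 : ℝ) < ∏ s, ‖D.w s z‖ := Finset.prod_pos fun s _ => hw s
  have hP2 : (0 : ℝ) < ∏ s, LamG (D.w s) (fun _ : Fin 0 => (0 : Fin (m s + 1) → ℂ)) r z :=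
    Finset.prod_pos fun s _ => hL s
  have h2 := Real.log_le_log (norm_pos_iff.mpr hz1) h1
  rw [Real.log_mul (by positivity) (by positivity), Real.log_mul (by positivity) (by positivity),
    Real.log_pow, Real.log_pow, Real.log_prod (fun s _ => (hw s).ne'),
    Real.log_prod (fun s _ => (hL s).ne')] at h2
  have h3 : ∑ s, log ‖D.w s z‖ ≤
      ∑ s, log (max 1 (A s)) + (∑ s, (D.eg s : ℝ)) * log ‖D.y z‖ := by
    rw [Finset.sum_mul, ← Finset.sum_add_distrib]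
    refine Finset.sum_le_sum fun s _ => ?_
    have hA1 : (0 : ℝ) < max 1 (A s) := lt_of_lt_of_le one_pos (le_max_left _ _)
    have hYe : 0 < ‖D.y z‖ ^ D.eg s := pow_pos hY _
    have h4 : ‖D.w s z‖ ≤ max 1 (A s) * ‖D.y z‖ ^ D.eg s :=
      (hA s z).trans (mul_le_mul_of_nonneg_right (le_max_right _ _) hYe.le)
    have h5 := Real.log_le_log (hw s) h4
    rw [Real.log_mul hA1.ne' hYe.ne', Real.log_pow] at h5
    exact h5
  have h4 := mul_le_mul_of_nonneg_left h3 (Nat.cast_nonneg (α := ℝ) M)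
  rw [norm_one, Real.log_one]
  push_cast
  linarith

end Pool.Agent.H49D
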