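import Pool.Agent.Lib.H49D.P1
import Pool.Agent.Lib.H49D.O1

set_option autoImplicit false

/-!
CHUNK P3 (M).  The order of the operator at crossings and tangencies, on the curve.
-/

open MvPolynomial Real MeasureTheory

namespace Pool.Agent.H49D

open Pool.Agent.H89T Pool.Agent.H78G Pool.Agent.H67T Pool.Agent.H53Y

variable {N : ℕ} {β : Type} [Fintype β] [DecidableEq β] {m : β → ℕ} {ι : Type} [Fintype ι]
variable {sb : ι → β} {dg : ι → ℕ} {n r : ℕ}

/-- CHUNK P3 (S).  `bx e (D.f e z) (sb i) = ch 0 (D.w (sb i)) z` (`Equiv.symm_apply_apply`) and `ev_cf` of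
`H89T/Hom.lean`. -/
theorem fv_eq (D : CurveY N m ι sb dg) (e : Co m ≃ Fin n) (i : ι) {z : ℂ}
    (hz : D.w (sb i) z 0 ≠ 0) :
    fv e D.a (D.f e z) i = D.φ i z / D.w (sb i) z 0 ^ dg i := by
  have h0 : ∀ x : Co m, D.f e z (e x) = ch 0 (D.w x.1) z x.2 := by
    intro x
    exact congrArg (fun x : Co m => ch 0 (D.w x.1) z x.2) (e.symm_apply_apply x)
  have h1 : bx e (D.f e z) (sb i) = fun b => D.w (sb i) z ((0 : Fin (m (sb i) + 1)).succAbove b) / D.w (sb i) z 0 := by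
    funext b
    exact h0 ⟨sb i, b⟩
  have h2 : fv e D.a (D.f e z) i = ev (cfF (dg i) 0 (D.F i)) (bx e (D.f e z) (sb i)) := rfl
  rw [h2, h1, ev_cf 0 (D.hF i) hz]
  rfl

/-- CHUNK P3 (M).  `D.f e . b` is analytic at `z` (`analyticAt_ch`); near `z`
`fv e D.a (D.f e w) i = φ_i w * (w_0 ^ dg i)⁻¹` (`fv_eq`), so its order is at least that of `φ_i`
(`le_order_mul`, as in `DF_order_factor` of `H89T/DF.lean`), and it vanishes at `z` if `φ_i` does.  So
`order_propG` applies.  Near `z`, `QM = (∏ s, w_s 0 ^ M) * eval (jet) P` (`QM_eq`), as in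
`DF_order_QQ`. -/
theorem order_QM [DecidableEq ι] (D : CurveY N m ι sb dg) (e : Co m ≃ Fin n) {M : ℕ}
    {P : MvPolynomial (JV n r) ℂ} (hr : 1 ≤ r) (hP : HasWt M P) (hPG : PropG e D.a r P) {z : ℂ}
    (hz : ∀ s, D.w s z 0 ≠ 0)
    (h : (∃ i, 2 ≤ analyticOrderAt (D.φ i) z) ∨
      ∃ i i', i ≠ i' ∧ D.φ i z = 0 ∧ D.φ i' z = 0) :
    (r : ℕ∞) ≤ analyticOrderAt (QM D e M P) z := by
  classical
  have hf : ∀ b, AnalyticAt ℂ (fun w => D.f e w b) z := fun b =>
    analyticAt_ch (D.hw (e.symm b).1) 0 (hz _) (e.symm b).2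
  have hnear : ∀ᶠ w in nhds z, ∀ s, D.w s w 0 ≠ 0 :=
    Filter.eventually_all.2 fun s => (D.hw s 0).continuous.continuousAt.eventually_ne (hz s)
  have hφ : ∀ i, AnalyticAt ℂ (D.φ i) z := fun i =>
    analyticAt_eval (D.F i) fun j => (D.hw (sb i) j).analyticAt z
  have h' : (∃ i, 2 ≤ analyticOrderAt (fun w => fv e D.a (D.f e w) i) z) ∨
      ∃ i i', i ≠ i' ∧ fv e D.a (D.f e z) i = 0 ∧ fv e D.a (D.f e z) i' = 0 := by
    rcases h with ⟨i, hi⟩ | ⟨i, i', hne, h1, h2⟩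
    · left
      refine ⟨i, ?_⟩
      have h1 : (fun w => fv e D.a (D.f e w) i) =ᶠ[nhds z]
          fun w => D.φ i w * (D.w (sb i) w 0 ^ dg i)⁻¹ := by
        filter_upwards [hnear] with w hw
        rw [fv_eq D e i (hw (sb i)), div_eq_mul_inv]
      rw [analyticOrderAt_congr h1]
      exact le_order_mul hi (hφ i)
        ((((D.hw (sb i) 0).analyticAt z).pow (dg i)).inv (pow_ne_zero _ (hz (sb i))))
    · right
      refine ⟨i, i', hne, ?_, ?_⟩
      · rw [fv_eq D e i (hz (sb i)), h1, zero_div]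
      · rw [fv_eq D e i' (hz (sb i')), h2, zero_div]
  have h1 := order_propG e hr hPG hf h'
  have h2 : QM D e M P =ᶠ[nhds z] fun w => eval (jetf r (D.f e) w) P * ∏ s, D.w s w 0 ^ M := by
    filter_upwards [hnear] with w hw
    rw [QM_eq D e hP hw, mul_comm]
  rw [analyticOrderAt_congr h2]
  refine le_order_mul h1 ?_ ?_
  · exact analyticAt_eval P fun p => analyticAt_jetf r hf p
  · exact Finset.analyticAt_fun_prod _ fun s _ => ((D.hw s 0).analyticAt z).pow M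

end Pool.Agent.H49D
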