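import Pool.Agent.Lib.H49D.W1

set_option autoImplicit false

/-!
CHUNK T1 (M).  Counting: few factors vanish at a point.
-/

open MvPolynomial Real MeasureTheory

namespace Pool.Agent.H49D

open Pool.Agent.H89T Pool.Agent.H78G Pool.Agent.H67T Pool.Agent.H53Y

/-- CHUNK T1 (S/M, only finite sums).  `ν i ≤ (ν i - m (sb i)) + (if ν i ≠ 0 then μ else 0)`; sum over the
blocks (`Finset.sum_fiberwise` or `Finset.card_eq_sum_card_fiberwise`): every block contributes at
most `μ * K`. -/
theorem count_le {β ι : Type} [Fintype β] [DecidableEq β] [Fintype ι] (sb : ι → β)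
    (m : β → ℕ) {K μ : ℕ} (hμ : ∀ s, m s ≤ μ) (ν : ι → ℕ)
    (h : ∀ s, (Finset.univ.filter fun i => sb i = s ∧ ν i ≠ 0).card * μ ≤ K) :
    ∑ i, ν i ≤ ∑ i, (ν i - m (sb i)) + Fintype.card β * K := by
  have h1 : ∀ i, ν i ≤ (ν i - m (sb i)) + (if ν i ≠ 0 then μ else 0) := by
    intro i
    have h2 := hμ (sb i)
    by_cases h3 : ν i ≠ 0
    · rw [if_pos h3]; omega
    · rw [if_neg h3]; omega
  refine (Finset.sum_le_sum fun i _ => h1 i).trans ?_
  rw [Finset.sum_add_distrib]
  refine Nat.add_le_add_left ?_ _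
  rw [← Finset.sum_fiberwise (Finset.univ : Finset ι) sb]
  refine (Finset.sum_le_card_nsmul _ _ K fun s _ => ?_).trans (le_of_eq ?_)
  · refine le_trans (le_of_eq ?_) (h s)
    rw [← Finset.sum_filter, Finset.filter_filter, Finset.sum_const, smul_eq_mul]
  · rw [Finset.card_univ, smul_eq_mul]

/-- CHUNK T1 (M).  `count_le` with `K = k * μ + μ ^ 2`: in a large block at most `k` factors vanish at
`z` (`hL`; `Nat.card` of the subtype is the cardinality of a filter, `Nat.card_eq_fintype_card`,
`Fintype.card_subtype`); in a small block at most `m s ≤ μ` (`GenPos.card_le` of `H78G/D4.lean`,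
`lin_θ`, `D.w s z ≠ 0`; the set of the factors of the block which vanish at `z` as a finset of
`{i // sb i = s}`: `Finset.subtype` or `Finset.univ.filter`, `Finset.card_map`). -/
theorem count_D {N : ℕ} {β : Type} [Fintype β] [DecidableEq β] {m : β → ℕ} {ι : Type}
    [Fintype ι] {sb : ι → β} {dg : ι → ℕ} (T : β → Bool) {k μ : ℕ} (D : CurveY N m ι sb dg)
    (hμ : ∀ s, m s ≤ μ) (h1 : ∀ i, T (sb i) = true → dg i = 1)
    (hg : ∀ s, T s = true → GenPos (D.θ s))
    (hL : ∀ s, T s = false → ∀ z, Nat.card {i : ι // sb i = s ∧ D.φ i z = 0} ≤ k)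
    (z : ℂ) (ν : ι → ℕ) (hν : ∀ i, ν i ≠ 0 → D.φ i z = 0) :
    ∑ i, ν i ≤ ∑ i, (ν i - m (sb i)) + Fintype.card β * (k * μ + μ ^ 2) := by
  classical
  refine count_le sb m hμ ν fun s => ?_
  cases hT : T s with
  | true =>
    have h2 : (Finset.univ.filter fun i => sb i = s ∧ ν i ≠ 0).card ≤ m s := by
      have h3 := (hg s hT).card_le ((isHol_w D s).ne_zero z)
        (Finset.univ.filter fun x : {i : ι // sb i = s} => ν x.1 ≠ 0) (fun x hx => by
          rw [lin_θ D s x (h1 x.1 (by rw [x.2]; exact hT)) z]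
          exact hν x.1 (Finset.mem_filter.1 hx).2)
      refine le_trans (le_of_eq ?_) h3
      rw [← Finset.card_map (Function.Embedding.subtype fun i : ι => sb i = s)]
      congr 1
      ext i
      simp only [Finset.mem_filter, Finset.mem_univ, true_and, Finset.mem_map, Function.Embedding.coe_subtype,
        Subtype.exists, exists_and_left, exists_prop, exists_eq_right_right]
      tauto
    calc _ ≤ m s * μ := Nat.mul_le_mul_right _ h2
      _ ≤ μ * μ := Nat.mul_le_mul_right _ (hμ s)
      _ ≤ k * μ + μ ^ 2 := by rw [pow_two]; exact Nat.le_add_left _ _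
  | false =>
    have h2 := hL s hT z
    rw [Nat.card_eq_fintype_card, Fintype.card_subtype] at h2
    have h3 : (Finset.univ.filter fun i => sb i = s ∧ ν i ≠ 0).card ≤ k := by
      refine le_trans (Finset.card_le_card fun i hi => ?_) h2
      rw [Finset.mem_filter] at hi ⊢
      exact ⟨hi.1, hi.2.1, hν i hi.2.2⟩
    calc _ ≤ k * μ := Nat.mul_le_mul_right _ h3
      _ ≤ k * μ + μ ^ 2 := Nat.le_add_right _ _

end Pool.Agent.H49D
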