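import Pool.Agent.Lib.H49D.DD

set_option autoImplicit false

/-!
CHUNK T2 (M, adapt `aux_order` of `H78G/D7A.lean`).  The order of the product of all auxiliary functions.
-/

open MvPolynomial Real MeasureTheory

namespace Pool.Agent.H49D

open Pool.Agent.H89T Pool.Agent.H78G Pool.Agent.H67T Pool.Agent.H53Y

/-- CHUNK T2 (M).  Let `ν i = ord_z φ_i` (finite: `NJ1_ne_top`, see the beginning of `aux_order`); then
`k ≤ ∑ i, ν i` (`D7A_order_prod`).  Nothing to prove for `k ≤ 1`.  For `k ≥ 2` either some `ν i ≥ 2` or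
`ν i, ν i' ≥ 1` for some `i ≠ i'` (if all `ν i ≤ 1` at least two of them are `1`), so `ord A ≥ r` and
`ord (A ^ K) ≥ K * r` (`DF_order_pow`).  `ord ∏ E_i ≥ ∑ (ν i - m)` over the large factors, the same for
`∏ W_s` over the small blocks (`D4_order_prod`), then the `r`-th powers.  Sum:
`r * (K + ∑ i, (ν i - m (sb i))) ≥ r * ∑ i, ν i` by `hcount` (the sum over all `i` is the sum over
the large ones plus the sum over the small blocks of the sums over the blocks:
`Finset.sum_fiberwise_of_maps_to`, `Finset.sum_filter_add_sum_filter_not`). -/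
theorem order_total {β ι : Type} [Fintype β] [DecidableEq β] [Fintype ι] (sb : ι → β)
    (m : β → ℕ) (T : β → Bool) {φ : ι → ℂ → ℂ} (hφ : ∀ i, Differentiable ℂ (φ i))
    (hφ0 : ∀ i, ∃ z, φ i z ≠ 0) {A : ℂ → ℂ} {E : ι → ℂ → ℂ} {W : β → ℂ → ℂ}
    (hA : Differentiable ℂ A) (hE : ∀ i, T (sb i) = false → Differentiable ℂ (E i))
    (hW : ∀ s, T s = true → Differentiable ℂ (W s)) (r K : ℕ) (z : ℂ)
    (hAo : ((∃ i, 2 ≤ analyticOrderAt (φ i) z) ∨ ∃ i i', i ≠ i' ∧ φ i z = 0 ∧ φ i' z = 0) →
      (r : ℕ∞) ≤ analyticOrderAt A z)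
    (hEo : ∀ i, T (sb i) = false → ∀ l : ℕ, (l : ℕ∞) ≤ analyticOrderAt (φ i) z →
      ((l - m (sb i) : ℕ) : ℕ∞) ≤ analyticOrderAt (E i) z)
    (hWo : ∀ s, T s = true → ∀ ν : ι → ℕ, (∀ i, (ν i : ℕ∞) ≤ analyticOrderAt (φ i) z) →
      ((∑ i ∈ Finset.univ.filter (fun i => sb i = s), (ν i - m s) : ℕ) : ℕ∞) ≤
        analyticOrderAt (W s) z)
    (hcount : ∀ ν : ι → ℕ, (∀ i, ν i ≠ 0 → φ i z = 0) →
      ∑ i, ν i ≤ ∑ i, (ν i - m (sb i)) + K)
    (k : ℕ) (hk : (k : ℕ∞) ≤ analyticOrderAt (fun w => ∏ i, φ i w) z) :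
    ((r * (k - 1) : ℕ) : ℕ∞) ≤ analyticOrderAt (fun w => A w ^ K *
      ((∏ i ∈ Finset.univ.filter (fun i => T (sb i) = false), E i w) ^ r *
        (∏ s ∈ Finset.univ.filter (fun s => T s = true), W s w) ^ r)) z := by
  have hfin : ∀ i, ∃ ν : ℕ, analyticOrderAt (φ i) z = ν := fun i => by
    obtain ⟨ν, hν⟩ := ENat.ne_top_iff_exists.1 (NJ1_ne_top (hφ i) (hφ0 i) z)
    exact ⟨ν, hν.symm⟩
  choose ν hν using hfin
  have hk' : k ≤ ∑ i, ν i := by
    rw [D7A_order_prod _ fun i _ => (hφ i).analyticAt z] at hk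
    simp only [hν] at hk
    exact_mod_cast hk
  rcases Nat.lt_or_ge k 2 with hk2 | hk2
  · have : k - 1 = 0 := by omega
    simp [this]
  have hzero : ∀ i, ν i ≠ 0 → φ i z = 0 := by
    intro i hi
    have h3 : analyticOrderAt (φ i) z ≠ 0 := by
      rw [hν i]
      exact_mod_cast hi
    exact (((hφ i).analyticAt z).analyticOrderAt_ne_zero).1 h3
  have hcase : (∃ i, 2 ≤ analyticOrderAt (φ i) z) ∨ ∃ i i', i ≠ i' ∧ φ i z = 0 ∧ φ i' z = 0 := by
    by_cases h4 : ∃ i, 2 ≤ ν i
    · obtain ⟨i, hi⟩ := h4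
      refine Or.inl ⟨i, ?_⟩
      rw [hν i]
      exact_mod_cast hi
    · push Not at h4
      obtain ⟨Z, hZ⟩ : ∃ Z : Finset ι, Z = Finset.univ.filter fun i => ν i ≠ 0 := ⟨_, rfl⟩
      have h5 : ∑ i, ν i ≤ Z.card := by
        classical
        calc ∑ i, ν i ≤ ∑ i, (if i ∈ Z then 1 else 0) := by
              refine Finset.sum_le_sum fun i _ => ?_
              by_cases hi : i ∈ Z
              · rw [if_pos hi]
                have := h4 i
                omega
              · rw [if_neg hi]
                rw [hZ, Finset.mem_filter] at hi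
                by_contra h
                exact hi ⟨Finset.mem_univ _, by omega⟩
          _ = Z.card := by simp
      obtain ⟨i, hi, i', hi', hne⟩ := Finset.one_lt_card.1 (by omega : 1 < Z.card)
      rw [hZ, Finset.mem_filter] at hi hi'
      exact Or.inr ⟨i, i', hne, hzero i hi.2, hzero i' hi'.2⟩
  have hA1 := DF_order_pow (hA.analyticAt z) K (hAo hcase)
  have hEd : AnalyticAt ℂ (fun w => ∏ i ∈ Finset.univ.filter (fun i => T (sb i) = false), E i w) z :=
    Finset.analyticAt_fun_prod _ fun i hi => (hE i (Finset.mem_filter.1 hi).2).analyticAt z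
  have hWd : AnalyticAt ℂ (fun w => ∏ s ∈ Finset.univ.filter (fun s => T s = true), W s w) z :=
    Finset.analyticAt_fun_prod _ fun s hs => (hW s (Finset.mem_filter.1 hs).2).analyticAt z
  have hE1 := D4_order_prod (Finset.univ.filter (fun i => T (sb i) = false)) (f := E) (z₀ := z)
    (μ := fun i => ν i - m (sb i))
    (fun i hi => (hE i (Finset.mem_filter.1 hi).2).analyticAt z)
    (fun i hi => hEo i (Finset.mem_filter.1 hi).2 (ν i) (hν i).ge)
  have hW1 := D4_order_prod (Finset.univ.filter (fun s => T s = true)) (f := W) (z₀ := z)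
    (μ := fun s => ∑ i ∈ Finset.univ.filter (fun i => sb i = s), (ν i - m s))
    (fun s hs => (hW s (Finset.mem_filter.1 hs).2).analyticAt z)
    (fun s hs => hWo s (Finset.mem_filter.1 hs).2 ν fun i => (hν i).ge)
  have hE2 := DF_order_pow hEd r hE1
  have hW2 := DF_order_pow hWd r hW1
  have hmul1 : analyticOrderAt (fun w => A w ^ K *
      ((∏ i ∈ Finset.univ.filter (fun i => T (sb i) = false), E i w) ^ r *
        (∏ s ∈ Finset.univ.filter (fun s => T s = true), W s w) ^ r)) z =
      analyticOrderAt (fun w => A w ^ K) z + analyticOrderAt (fun w =>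
        (∏ i ∈ Finset.univ.filter (fun i => T (sb i) = false), E i w) ^ r *
        (∏ s ∈ Finset.univ.filter (fun s => T s = true), W s w) ^ r) z :=
    analyticOrderAt_mul ((hA.analyticAt z).pow K) ((hEd.pow r).mul (hWd.pow r))
  have hmul2 : analyticOrderAt (fun w =>
        (∏ i ∈ Finset.univ.filter (fun i => T (sb i) = false), E i w) ^ r *
        (∏ s ∈ Finset.univ.filter (fun s => T s = true), W s w) ^ r) z =
      analyticOrderAt (fun w =>
        (∏ i ∈ Finset.univ.filter (fun i => T (sb i) = false), E i w) ^ r) z +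
      analyticOrderAt (fun w =>
        (∏ s ∈ Finset.univ.filter (fun s => T s = true), W s w) ^ r) z :=
    analyticOrderAt_mul (hEd.pow r) (hWd.pow r)
  rw [hmul1, hmul2]
  refine le_trans ?_ (add_le_add hA1 (add_le_add hE2 hW2))
  have hcnt := hcount ν hzero
  have hsum : ∑ i, (ν i - m (sb i)) =
      ∑ i ∈ Finset.univ.filter (fun i => T (sb i) = false), (ν i - m (sb i)) +
      ∑ s ∈ Finset.univ.filter (fun s => T s = true),
        ∑ i ∈ Finset.univ.filter (fun i => sb i = s), (ν i - m s) := by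
    have h1 : ∑ s ∈ Finset.univ.filter (fun s => T s = true),
        ∑ i ∈ Finset.univ.filter (fun i => sb i = s), (ν i - m s) =
        ∑ i ∈ Finset.univ.filter (fun i => T (sb i) = true), (ν i - m (sb i)) := by
      rw [← Finset.sum_fiberwise_of_maps_to (s := Finset.univ.filter (fun i => T (sb i) = true))
        (t := Finset.univ.filter (fun s => T s = true)) (g := sb)
        (fun i hi => Finset.mem_filter.2 ⟨Finset.mem_univ _, (Finset.mem_filter.1 hi).2⟩)]
      refine Finset.sum_congr rfl fun s hs => ?_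
      have hs' : T s = true := (Finset.mem_filter.1 hs).2
      rw [Finset.filter_filter]
      refine Finset.sum_congr ?_ ?_
      · ext i
        simp only [Finset.mem_filter, Finset.mem_univ, true_and]
        constructor
        · intro h
          rw [h]
          exact ⟨hs', rfl⟩
        · intro h
          exact h.2
      · intro i hi
        rw [(Finset.mem_filter.1 hi).2.2]
    rw [h1]
    have h2 : Finset.univ.filter (fun i => T (sb i) = true) =
        Finset.univ.filter (fun i => ¬T (sb i) = false) := by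
      ext i
      simp
    rw [h2]
    exact (Finset.sum_filter_add_sum_filter_not _ _ _).symm
  have h6 : r * (k - 1) ≤ K * r + (r * ∑ i ∈ Finset.univ.filter (fun i => T (sb i) = false),
      (ν i - m (sb i)) + r * ∑ s ∈ Finset.univ.filter (fun s => T s = true),
        ∑ i ∈ Finset.univ.filter (fun i => sb i = s), (ν i - m s)) := by
    have h7 : k - 1 ≤ (∑ i ∈ Finset.univ.filter (fun i => T (sb i) = false), (ν i - m (sb i)) +
      ∑ s ∈ Finset.univ.filter (fun s => T s = true),
        ∑ i ∈ Finset.univ.filter (fun i => sb i = s), (ν i - m s)) + K := by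
      rw [← hsum]
      omega
    calc r * (k - 1) ≤ r * ((∑ i ∈ Finset.univ.filter (fun i => T (sb i) = false),
          (ν i - m (sb i)) + ∑ s ∈ Finset.univ.filter (fun s => T s = true),
          ∑ i ∈ Finset.univ.filter (fun i => sb i = s), (ν i - m s)) + K) :=
          Nat.mul_le_mul_left _ h7
      _ = _ := by ring
  exact_mod_cast h6

end Pool.Agent.H49D
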