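import Pool.Agent.Lib.H49D.DD

set_option autoImplicit false

/-!
CHUNK W1 (S/M).  The linear forms of a small block.
-/

open MvPolynomial Real MeasureTheory

namespace Pool.Agent.H49D

open Pool.Agent.H89T Pool.Agent.H78G Pool.Agent.H67T Pool.Agent.H53Y

variable {N : ℕ} {β : Type} {m : β → ℕ} {ι : Type} [Fintype ι]
variable {sb : ι → β} {dg : ι → ℕ}

theorem w1_lin {n : ℕ} {F : MvPolynomial (Fin n) ℂ} (hF : F.IsHomogeneous 1) :
    F = ∑ b, C (coeff (Finsupp.single b 1) F) * X b := by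
  classical
  ext d
  rw [coeff_sum]
  by_cases hd : d.degree = 1
  · obtain ⟨b, rfl⟩ : ∃ b, d = Finsupp.single b 1 := by
      have h0 : d ≠ 0 := by
        rintro rfl
        rw [map_zero] at hd
        exact zero_ne_one hd
      obtain ⟨b, hb⟩ := Finsupp.ne_iff.1 h0
      have h1 : Finsupp.single b 1 ≤ d := by
        rw [Finsupp.single_le_iff]
        exact Nat.one_le_iff_ne_zero.2 hb
      have h2 : d = Finsupp.single b 1 + (d - Finsupp.single b 1) := (add_tsub_cancel_of_le h1).symm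
      have h3 := congrArg Finsupp.degree h2
      rw [map_add, hd, Finsupp.degree_single] at h3
      have h4 : (d - Finsupp.single b 1).degree = 0 := by omega
      rw [Finsupp.degree_eq_zero_iff] at h4
      rw [h4, add_zero] at h2
      exact ⟨b, h2⟩
    rw [Finset.sum_eq_single b]
    · rw [coeff_C_mul, coeff_X, if_pos rfl, mul_one]
    · intro c _ hc
      rw [coeff_C_mul, coeff_X, if_neg, mul_zero]
      intro h
      exact hc (Finsupp.single_left_injective one_ne_zero h)
    · intro h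
      exact absurd (Finset.mem_univ _) h
  · rw [hF.coeff_eq_zero hd, Finset.sum_eq_zero]
    intro b _
    rw [coeff_C_mul, coeff_X, if_neg, mul_zero]
    rintro rfl
    exact hd (Finsupp.degree_single _ _)

/-- CHUNK W1 (S).  A form of degree `1` is `∑ b, coeff (single b 1) F * X b`. -/
theorem eval_linear {n : ℕ} {F : MvPolynomial (Fin n) ℂ} (hF : F.IsHomogeneous 1)
    (v : Fin n → ℂ) : eval v F = ∑ b, coeff (Finsupp.single b 1) F * v b := by
  conv_lhs => rw [w1_lin hF]
  rw [map_sum]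
  refine Finset.sum_congr rfl fun b _ => ?_
  rw [map_mul, eval_C, eval_X]

/-- CHUNK W1 (S).  `subst` the equation `sb x.1 = s`, then `eval_linear` (`Fin.cast` is the identity). -/
theorem lin_θ (D : CurveY N m ι sb dg) (s : β) (x : {i : ι // sb i = s}) (h1 : dg x.1 = 1) (z : ℂ) :
    lin (D.θ s x) (D.w s z) = D.φ x.1 z := by
  obtain ⟨i, rfl⟩ := x
  have h2 := D.hF i
  have h1' : dg i = 1 := h1
  rw [h1'] at h2
  show lin (D.θ (sb i) ⟨i, rfl⟩) (D.w (sb i) z) = eval (D.w (sb i) z) (D.F i)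
  rw [eval_linear h2]
  rfl

/-- CHUNK W1 (S).  `D.w s` is a reduced representation (`D.hwge`: `δ ‖y‖ ^ e ≤ ‖w‖`, `y ≠ 0`). -/
theorem isHol_w (D : CurveY N m ι sb dg) (s : β) : IsHol (D.w s) := by
  refine ⟨D.hw s, fun z h0 => ?_⟩
  obtain ⟨δ, hδ, h⟩ := D.hwge s
  have h1 := h z
  rw [h0, norm_zero] at h1
  have h2 : 0 < ‖D.y z‖ := norm_pos_iff.2 (D.hy.ne_zero z)
  exact absurd h1 (not_le.2 (mul_pos hδ (pow_pos h2 _)))

/-- CHUNK W1 (S).  `φ i` is entire. -/
theorem φ_diff (D : CurveY N m ι sb dg) (i : ι) : Differentiable ℂ (D.φ i) := by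
  exact differentiable_eval (D.hw (sb i)) (D.F i)

end Pool.Agent.H49D
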