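import Pool.Agent.Lib.H49D.W0
import Pool.Agent.Lib.H49D.W1
import Pool.Agent.Lib.H49D.B0
import Pool.Agent.Lib.H49D.A3

set_option autoImplicit false

/-!
CHUNK W2 (M/L).  The auxiliary function of one small block: the Wronskian.
-/

open MvPolynomial Real MeasureTheory

namespace Pool.Agent.H49D

open Pool.Agent.H89T Pool.Agent.H78G Pool.Agent.H67T Pool.Agent.H53Y

theorem w2_norm {m : ℕ} (v : Fin (m + 1) → ℂ) : ∃ c, ‖v c‖ = ‖v‖ := by
  obtain ⟨c, -, hc⟩ := Finset.exists_max_image Finset.univ (fun c => ‖v c‖) Finset.univ_nonempty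
  refine ⟨c, le_antisymm (norm_le_pi_norm v c) ?_⟩
  rw [pi_norm_le_iff_of_nonneg (norm_nonneg _)]
  exact fun j => hc j (Finset.mem_univ _)

theorem w2_eval {m r : ℕ} (hr : m ≤ r) (ξ : JV m r → ℂ) : eval ξ (WdP (m := m) hr) = Wd hr ξ := by
  unfold WdP
  rw [Wd_map hr (eval ξ)]
  simp

/-- CHUNK W2 (M).  Cartan's estimate for the full Wronskian.  At a good point choose a chart `c` with
`‖y_c‖ = ‖y‖` (sup norm); `cartan_growth (le_refl m) (le_refl m) D c` (a constant for each `c`, take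
the sum), `QQ D.y c ((m + 1) * m) WdP = y_c ^ ((m + 1) * m) * Wd (jet)` (`QQ_eq`, `WdP_wt`, see the
beginning of the proof of `cartan_growth`), so
`‖Wd (jet)‖ * ‖y‖ ^ q ≤ C * ∏ ‖θ_i (y)‖ * Lam ^ (m + 1)` after division by
`‖y‖ ^ ((m + 1) * m) > 0`, and `Wr_eq`. -/
theorem cartan_Wr {m : ℕ} {ι : Type} [Fintype ι] (D : CurveG m ι) :
    ∃ C : ℝ, 0 ≤ C ∧ ∀ z, Good D.y D.θ z →
      ‖Wr D.y z‖ * ‖D.y z‖ ^ Fintype.card ι ≤
        C * (∏ i, ‖lin (D.θ i) (D.y z)‖) * ‖D.y z‖ ^ (m + 1) *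
          LamG D.y D.θ m z ^ (m + 1) := by
  choose C hC0 hC using fun c => cartan_growth (le_refl m) (le_refl m) D c
  have hK0 : (0 : ℝ) ≤ ∏ l : Fin m, (((l : ℕ) + 1).factorial : ℝ) :=
    Finset.prod_nonneg fun _ _ => by positivity
  refine ⟨(∏ l : Fin m, (((l : ℕ) + 1).factorial : ℝ)) * ∑ c, C c,
    mul_nonneg hK0 (Finset.sum_nonneg fun c _ => hC0 c), fun z hz => ?_⟩
  obtain ⟨c, hc⟩ := w2_norm (D.y z)
  have h1 := hC c z hz hc
  have hY0 : 0 < ‖D.y z‖ := norm_pos_iff.2 (D.hy.ne_zero z)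
  rw [QQ_eq D.hy.diff c (WdP_wt (le_refl m)) (hz.1 c), w2_eval, norm_mul, norm_pow, hc] at h1
  have h2 : ‖Wd (le_refl m) (jetf m (ch c D.y) z)‖ * ‖D.y z‖ ^ Fintype.card ι ≤
      C c * (∏ i, ‖lin (D.θ i) (D.y z)‖) * LamG D.y D.θ m z ^ (m + 1) := by
    have h3 : 0 < ‖D.y z‖ ^ ((m + 1) * m) := pow_pos hY0 _
    refine le_of_mul_le_mul_left ?_ h3
    calc _ = ‖D.y z‖ ^ ((m + 1) * m) * ‖Wd (le_refl m) (jetf m (ch c D.y) z)‖ * ‖D.y z‖ ^ Fintype.card ι := by ring
      _ ≤ _ := h1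
      _ = _ := by ring
  have h4 : C c ≤ ∑ c, C c := Finset.single_le_sum (fun c _ => hC0 c) (Finset.mem_univ c)
  have h5 : (0 : ℝ) ≤ (∏ i, ‖lin (D.θ i) (D.y z)‖) * LamG D.y D.θ m z ^ (m + 1) :=
    mul_nonneg (Finset.prod_nonneg fun _ _ => norm_nonneg _)
      (pow_nonneg (zero_le_one.trans (one_le_LamG D.y D.θ m z)) _)
  rw [Wr_eq (le_refl m) D.hy.diff c (hz.1 c), norm_mul, norm_mul, norm_mul, norm_pow, norm_pow, norm_neg, norm_one,
    one_pow, one_mul, norm_prod, hc]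
  have h6 : ∏ l : Fin m, ‖(((l : ℕ) + 1).factorial : ℂ)‖ = ∏ l : Fin m, (((l : ℕ) + 1).factorial : ℝ) :=
    Finset.prod_congr rfl fun l _ => by rw [Complex.norm_natCast]
  rw [h6]
  calc _ = (∏ l : Fin m, (((l : ℕ) + 1).factorial : ℝ)) * ‖D.y z‖ ^ (m + 1) *
        (‖Wd (le_refl m) (jetf m (ch c D.y) z)‖ * ‖D.y z‖ ^ Fintype.card ι) := by ring
    _ ≤ (∏ l : Fin m, (((l : ℕ) + 1).factorial : ℝ)) * ‖D.y z‖ ^ (m + 1) *
        ((∑ c, C c) * ((∏ i, ‖lin (D.θ i) (D.y z)‖) * LamG D.y D.θ m z ^ (m + 1))) := by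
      refine mul_le_mul_of_nonneg_left (h2.trans ?_) (mul_nonneg hK0 (pow_nonneg hY0.le _))
      rw [mul_assoc]
      exact mul_le_mul_of_nonneg_right h4 h5
    _ = _ := by ring

/-- CHUNK W2 (S/M).  The order of the full Wronskian: `order_Wd (le_refl m)` (`H78G/D4.lean`) in a chart
with `y z c ≠ 0`; near `z` `Wr = Wd (jet) * (const * y_c ^ (m + 1))` (`Wr_eq`), `le_order_mul`. -/
theorem order_Wr {m : ℕ} {ι : Type} [Fintype ι] (D : CurveG m ι) {z : ℂ} (ν : ι → ℕ)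
    (hν : ∀ i, (ν i : ℕ∞) ≤ analyticOrderAt (fun w => lin (D.θ i) (D.y w)) z) :
    ((∑ i, (ν i - m) : ℕ) : ℕ∞) ≤ analyticOrderAt (Wr D.y) z := by
  obtain ⟨c, hc⟩ : ∃ c, D.y z c ≠ 0 := by
    by_contra h
    push Not at h
    exact D.hy.ne_zero z (funext h)
  have h1 := order_Wd (le_refl m) D c hc ν hν
  have hyc : ∀ᶠ w in nhds z, D.y w c ≠ 0 :=
    ((D.hy.diff c).continuous.continuousAt).eventually_ne hc
  have hev : Wr D.y =ᶠ[nhds z] fun w => eval (jetf m (ch c D.y) w) (WdP (m := m) (le_refl m)) *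
      ((-1) ^ (c : ℕ) * (∏ l : Fin m, (((l : ℕ) + 1).factorial : ℂ)) * D.y w c ^ (m + 1)) := by
    filter_upwards [hyc] with w hw
    rw [Wr_eq (le_refl m) D.hy.diff c hw, w2_eval]
    ring
  rw [analyticOrderAt_congr hev]
  refine le_order_mul h1 ?_ ?_
  · exact analyticAt_eval _ fun p => analyticAt_jetf m (fun b => analyticAt_ch D.hy.diff c hc b) p
  · exact analyticAt_const.fun_mul (((D.hy.diff c).analyticAt z).fun_pow _)

/-- CHUNK W2 (M).  If the block has no factor: `W = 1`, `b = 0` (`Aux.one`; the product is empty).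
Otherwise `W = Wr (D.w s)`, `b = D.eg s * (m s + 1)`, with the data
`D' : CurveG (m s) {i // sb i = s}`, `y := D.w s`, `θ := D.θ s` (`isHol_w`, `lin_θ`, `Nat.card` and
`Fintype.card`, `Fintype.card_subtype`); `aux_of_bound` with `G₀ = ∏ j, D.w s z j * ∏ φ_i`,
`small_LamG`, `cartan_Wr`; products over the subtype and over the filter:
`Finset.prod_subtype` / `Finset.prod_coe_sort` (`Finset.subtype`), the same for the sums. -/
theorem exists_small {N : ℕ} {β : Type} [DecidableEq β] {m : β → ℕ} {ι : Type} [Fintype ι]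
    {sb : ι → β} {dg : ι → ℕ} (D : CurveY N m ι sb dg) (s : β) (h1 : ∀ i, sb i = s → dg i = 1)
    (hg : GenPos (D.θ s))
    (hc : (∃ i, sb i = s) → m s + 1 ≤ Nat.card {i : ι // sb i = s})
    (hW : ∃ z, Wr (D.w s) z ≠ 0) :
    ∃ (W : ℂ → ℂ) (b : ℕ), b ≤ D.eg s * (m s + 1) ∧
      Aux D.y W (fun z => ∏ i ∈ Finset.univ.filter (fun i => sb i = s), D.φ i z)
        (D.eg s * (Finset.univ.filter (fun i => sb i = s)).card) b ∧
      ∀ (z : ℂ) (ν : ι → ℕ), (∀ i, (ν i : ℕ∞) ≤ analyticOrderAt (D.φ i) z) →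
        ((∑ i ∈ Finset.univ.filter (fun i => sb i = s), (ν i - m s) : ℕ) : ℕ∞) ≤
          analyticOrderAt W z := by
  by_cases hex : ∃ i, sb i = s
  · obtain ⟨D', hy', hθ'⟩ : ∃ D' : CurveG (m s) {i : ι // sb i = s}, D'.y = D.w s ∧ D'.θ = D.θ s :=
      ⟨{  y := D.w s
          θ := D.θ s
          hy := isHol_w D s
          hy0 := D.hw0 s
          hθ0 := fun x => by
            obtain ⟨z, hz⟩ := D.hF0 x.1
            exact ⟨z, by rw [lin_θ D s x (h1 x.1 x.2) z]; exact hz⟩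
          gen := hg
          card := by
            have := hc hex
            rwa [Nat.card_eq_fintype_card] at this }, rfl, rfl⟩
    have hcard : Fintype.card {i : ι // sb i = s} = (Finset.univ.filter fun i => sb i = s).card :=
      Fintype.card_subtype _
    have hG : Differentiable ℂ fun z => ∏ i ∈ Finset.univ.filter (fun i => sb i = s), D.φ i z :=
      Differentiable.fun_finsetProd fun i _ => φ_diff D i
    have hG0 : ∃ z, ∏ i ∈ Finset.univ.filter (fun i => sb i = s), D.φ i z ≠ 0 :=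
      exists_prod_ne _ (fun i _ => φ_diff D i) fun i _ => D.hF0 i
    have hw : Differentiable ℂ fun z => ∏ j, D.w s z j :=
      Differentiable.fun_finsetProd fun j _ => D.hw s j
    have hw0 : ∃ z, ∏ j, D.w s z j ≠ 0 := exists_prod_ne _ (fun j _ => D.hw s j) fun j _ => D.hw0 s j
    have hprod : ∀ z, ∏ x : {i : ι // sb i = s}, ‖lin (D.θ s x) (D.w s z)‖ =
        ‖∏ i ∈ Finset.univ.filter (fun i => sb i = s), D.φ i z‖ := by
      intro z
      rw [norm_prod, Finset.prod_subtype (Finset.univ.filter fun i => sb i = s) (p := fun i => sb i = s)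
        (fun i => by simp)]
      exact Finset.prod_congr rfl fun x _ => by rw [lin_θ D s x (h1 x.1 x.2) z]
    obtain ⟨C, hC0, hC⟩ := cartan_Wr D'
    rw [hy', hθ'] at hC
    refine ⟨Wr (D.w s), D.eg s * (m s + 1), le_refl _, ?_, ?_⟩
    · refine aux_of_bound (w := D.w s) (G₀ := fun z => (∏ j, D.w s z j) *
        ∏ i ∈ Finset.univ.filter (fun i => sb i = s), D.φ i z) (Λ := LamG (D.w s) (D.θ s) (m s))
        (q := m s + 1) (C := C) D.hy (Wr_diff (D.hw s)) hW hG hG0 (hw.fun_mul hG) (exists_mul_ne hw hw0 hG hG0)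
        (D.hwle s) (D.hwge s) (one_le_LamG _ _ _)
        (small_LamG D.hy (D.hw s) (D.hw0 s) (D.hwle s) (fun x => ?_) (m s)) fun z hz => ?_
      · obtain ⟨z, hz⟩ := D.hF0 x.1
        exact ⟨z, by rw [lin_θ D s x (h1 x.1 x.2) z]; exact hz⟩
      · have hz1 := left_ne_zero_of_mul hz
        have hz2 := right_ne_zero_of_mul hz
        rw [Finset.prod_ne_zero_iff] at hz1 hz2
        have h3 := hC z ⟨fun j => hz1 j (Finset.mem_univ _), fun x => by
          rw [lin_θ D s x (h1 x.1 x.2) z]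
          exact hz2 x.1 (Finset.mem_filter.2 ⟨Finset.mem_univ _, x.2⟩)⟩
        rw [hprod, hcard] at h3
        exact h3
    · intro z ν hν
      have h3 := order_Wr D' (z := z) (fun x => ν x.1) (fun x => by
        rw [hy', hθ']
        have h4 : (fun w => lin (D.θ s x) (D.w s w)) = D.φ x.1 := funext fun w => lin_θ D s x (h1 x.1 x.2) w
        rw [h4]
        exact hν x.1)
      rw [hy'] at h3
      refine le_trans (le_of_eq ?_) h3
      rw [Finset.sum_subtype (Finset.univ.filter fun i => sb i = s) (p := fun i => sb i = s)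
        (fun i => by simp)]
  · have hemp : Finset.univ.filter (fun i => sb i = s) = ∅ := by
      rw [Finset.filter_eq_empty_iff]
      intro i _ hi
      exact hex ⟨i, hi⟩
    refine ⟨fun _ => 1, 0, Nat.zero_le _, ?_, ?_⟩
    · rw [hemp]
      simp only [Finset.prod_empty, Finset.card_empty, mul_zero]
      exact Aux.one
    · intro z ν _
      rw [hemp, Finset.sum_empty, Nat.cast_zero]
      exact zero_le

end Pool.Agent.H49D
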