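import Pool.Agent.Lib.H53Y.IDE
import Pool.Agent.Lib.H49D.A2
import Pool.Agent.Lib.H49D.P2
import Pool.Agent.Lib.H49D.P3
import Pool.Agent.Lib.H49D.B1
import Pool.Agent.Lib.H49D.W2
import Pool.Agent.Lib.H49D.T1
import Pool.Agent.Lib.H49D.T2

set_option autoImplicit false

/-!
CHUNK T3 (M/L).  Module D: assembly.
-/

open MvPolynomial Real MeasureTheory

namespace Pool.Agent.H49D

open Pool.Agent.H89T Pool.Agent.H78G Pool.Agent.H67T Pool.Agent.H53Y

/-- CHUNK T3 (S/M).  `chi y ρ ≥ - K` for `ρ ≥ 1` (`chi_mono hy`, see `hlow` in the proof of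
`H89T.absorb`, `H89T/DH.lean`), `1 ≤ err` (`NS2_err_ge`). -/
theorem weaken {N : ℕ} {y : ℂ → Fin N → ℂ} (hy : IsHol y) {B B' : ℕ} (hB : B ≤ B') {κ C : ℝ}
    (hC : 0 ≤ C) {S : ℝ → ℝ}
    (h : ∀ r R : ℝ, 1 ≤ r → r < R → κ * chi y r ≤ S r + B * chi y r + C * err y r R) :
    ∃ C' : ℝ, 0 ≤ C' ∧ ∀ r R : ℝ, 1 ≤ r → r < R →
      κ * chi y r ≤ S r + B' * chi y r + C' * err y r R := by
  have hlow : ∀ r : ℝ, 1 ≤ r → -|chi y 1| ≤ chi y r := by
    intro r hr
    have h1 := chi_mono hy (r := 1) (R := r) one_pos hr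
    have h2 := neg_abs_le (chi y 1)
    linarith
  have hBB : (0 : ℝ) ≤ (B' : ℝ) - B := by
    have h4 : (B : ℝ) ≤ B' := by exact_mod_cast hB
    linarith
  refine ⟨C + ((B' : ℝ) - B) * |chi y 1|, add_nonneg hC (mul_nonneg hBB (abs_nonneg _)), ?_⟩
  intro r R hr hrR
  have h1 := h r R hr hrR
  have h2 := hlow r hr
  have h3 : 1 ≤ err y r R := NS2_err_ge y r R
  have h5 : 0 ≤ ((B' : ℝ) - B) * (chi y r + |chi y 1|) := mul_nonneg hBB (by linarith)
  have h6 : 0 ≤ ((B' : ℝ) - B) * |chi y 1| * (err y r R - 1) :=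
    mul_nonneg (mul_nonneg hBB (abs_nonneg _)) (by linarith)
  have h7 : (C + ((B' : ℝ) - B) * |chi y 1|) * err y r R
      = C * err y r R + ((B' : ℝ) - B) * |chi y 1| * (err y r R - 1) +
        ((B' : ℝ) - B) * |chi y 1| := by ring
  rw [h7]
  have h8 : ((B' : ℝ) - B) * (chi y r + |chi y 1|)
      = B' * chi y r - B * chi y r + ((B' : ℝ) - B) * |chi y 1| := by ring
  rw [h8] at h5
  linarith

/-- CHUNK T3 (M).  The products and the sums: large factors and small blocks. -/
theorem prod_split {β ι : Type} [Fintype β] [DecidableEq β] [Fintype ι] (sb : ι → β)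
    (T : β → Bool) {X : Type} [CommMonoid X] (g : ι → X) :
    (∏ i ∈ Finset.univ.filter (fun i => T (sb i) = false), g i) *
      (∏ s ∈ Finset.univ.filter (fun s => T s = true),
        ∏ i ∈ Finset.univ.filter (fun i => sb i = s), g i) = ∏ i, g i := by
  have h1 : (∏ s ∈ Finset.univ.filter (fun s => T s = true),
        ∏ i ∈ Finset.univ.filter (fun i => sb i = s), g i) =
      ∏ i ∈ Finset.univ.filter (fun i => T (sb i) = true), g i := by
    rw [← Finset.prod_fiberwise_of_maps_to
      (s := Finset.univ.filter (fun i => T (sb i) = true))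
      (t := Finset.univ.filter (fun s => T s = true)) (g := sb)
      (by intro i hi; simpa using hi)]
    refine Finset.prod_congr rfl (fun s hs => ?_)
    refine Finset.prod_congr ?_ (fun _ _ => rfl)
    ext i
    simp only [Finset.mem_filter, Finset.mem_univ, true_and] at hs ⊢
    constructor
    · intro hi
      exact ⟨by rw [hi]; exact hs, hi⟩
    · exact fun hi => hi.2
  have h2 : Finset.univ.filter (fun i => T (sb i) = false) =
      Finset.univ.filter (fun i => ¬ T (sb i) = true) := by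
    ext i
    simp
  rw [h1, h2, mul_comm]
  exact Finset.prod_filter_mul_prod_filter_not Finset.univ (fun i => T (sb i) = true) g

private theorem t3_sum_split {β ι : Type} [Fintype β] [DecidableEq β] [Fintype ι] (sb : ι → β)
    (T : β → Bool) (g : ι → ℕ) :
    (∑ i ∈ Finset.univ.filter (fun i => T (sb i) = false), g i) +
      (∑ s ∈ Finset.univ.filter (fun s => T s = true),
        ∑ i ∈ Finset.univ.filter (fun i => sb i = s), g i) = ∑ i, g i :=
  prod_split (X := Multiplicative ℕ) sb T g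

/-- CHUNK T3 (M/L).  **Module D.**  Choose `E i` (`exists_large`) for the large factors, `W s`, `b s`
(`exists_small`) for the small blocks.  `K = card β * (k * μ + μ ^ 2)`,
`Q = QM ^ K * ((∏ i large, E i) ^ r * (∏ s small, W s) ^ r)`.  By `Aux.mul`, `Aux.pow`, `Aux.prod`, `aux_QM`:
`Aux D.y Q (..) κ B` with `(..) = 1 ^ K * ((∏ i large, φ i) ^ r * (∏ s small, ∏ i ∈ s, φ i) ^ r) =
(∏ i, φ i) ^ r` (`prod_split`), `κ = K * 0 + (r * ∑ i large, eg * dg i + r * ∑ s small, eg s * card) =
r * ∑ i, eg (sb i) * dg i` (`dg i = 1` in the small blocks; the additive form of `prod_split`: apply it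
with `X = Multiplicative ℕ` or prove it in the same way), `B = K * (M * ∑ eg) +
(r * ∑ i large, eg * ((m + 1) * dB i) + r * ∑ s small, b s)`.  `core_small` with `Fy = ∏ i, φ i`,
`ρ = r`; the order condition is `order_total` (`order_QM`: a crossing or tangency point is a zero of some
`φ i`, so all `D.w s z 0 ≠ 0` by `hz0`; for `2 ≤ ord φ_i` use
`AnalyticAt.analyticOrderAt_ne_zero`), `count_D`.  Finally `weaken` (`m s ≤ μ`, `b s ≤ ..`, sums over
filters are at most sums over everything). -/
theorem curve_main : D_statement := by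
  intro N β _ _ m ι _ _ sb dg T n r M k μ e D hr hm1 hmr hmμ hz0 hd1 hgen hcard hWr hL dB hB P hP
    hPG hP0
  have hE : ∀ i : ι, T (sb i) = false → ∃ E : ℂ → ℂ,
      Aux D.y E (D.φ i) (D.eg (sb i) * dg i) (D.eg (sb i) * ((m (sb i) + 1) * dB i)) ∧
      ∀ (z : ℂ) (l : ℕ), (l : ℕ∞) ≤ analyticOrderAt (D.φ i) z →
        ((l - m (sb i) : ℕ) : ℕ∞) ≤ analyticOrderAt E z :=
    fun i hi => exists_large D i (dB i) (hB i hi)
  choose! E hEA hEo using hE
  have hW : ∀ s : β, T s = true → ∃ (W : ℂ → ℂ) (b : ℕ), b ≤ D.eg s * (m s + 1) ∧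
      Aux D.y W (fun z => ∏ i ∈ Finset.univ.filter (fun i => sb i = s), D.φ i z)
        (D.eg s * (Finset.univ.filter (fun i => sb i = s)).card) b ∧
      ∀ (z : ℂ) (ν : ι → ℕ), (∀ i, (ν i : ℕ∞) ≤ analyticOrderAt (D.φ i) z) →
        ((∑ i ∈ Finset.univ.filter (fun i => sb i = s), (ν i - m s) : ℕ) : ℕ∞) ≤
          analyticOrderAt W z :=
    fun s hs => exists_small D s (fun i hi => hd1 i (by rw [hi]; exact hs)) (hgen s hs)
      (hcard s hs) (hWr s hs)
  choose! W b hb hWA hWo using hW
  have hmemE : ∀ i ∈ Finset.univ.filter (fun i => T (sb i) = false), T (sb i) = false :=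
    fun i hi => (Finset.mem_filter.mp hi).2
  have hmemW : ∀ s ∈ Finset.univ.filter (fun s => T s = true), T s = true :=
    fun s hs => (Finset.mem_filter.mp hs).2
  have hA1 := (aux_QM D e hP hP0).pow (Fintype.card β * (k * μ + μ ^ 2))
  have hA2 := (Aux.prod (Finset.univ.filter (fun i => T (sb i) = false))
    (fun i hi => hEA i (hmemE i hi))).pow r
  have hA3 := (Aux.prod (Finset.univ.filter (fun s => T s = true))
    (fun s hs => hWA s (hmemW s hs))).pow r
  have hA := hA1.mul (hA2.mul hA3)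
  have hG : (fun z => (1 : ℂ) ^ (Fintype.card β * (k * μ + μ ^ 2)) *
      ((∏ i ∈ Finset.univ.filter (fun i => T (sb i) = false), D.φ i z) ^ r *
        (∏ s ∈ Finset.univ.filter (fun s => T s = true),
          ∏ i ∈ Finset.univ.filter (fun i => sb i = s), D.φ i z) ^ r)) =
      fun z => (∏ i, D.φ i z) ^ r := by
    funext z
    rw [one_pow, one_mul, ← mul_pow, prod_split sb T (fun i => D.φ i z)]
  rw [hG] at hA
  have hκ : Fintype.card β * (k * μ + μ ^ 2) * 0 +
      (r * ∑ i ∈ Finset.univ.filter (fun i => T (sb i) = false), D.eg (sb i) * dg i +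
        r * ∑ s ∈ Finset.univ.filter (fun s => T s = true),
          D.eg s * (Finset.univ.filter (fun i => sb i = s)).card) =
      r * ∑ i, D.eg (sb i) * dg i := by
    rw [mul_zero, zero_add, ← mul_add, ← t3_sum_split sb T (fun i => D.eg (sb i) * dg i)]
    congr 2
    refine Finset.sum_congr rfl (fun s hs => ?_)
    rw [Finset.card_eq_sum_ones, Finset.mul_sum]
    refine Finset.sum_congr rfl (fun i hi => ?_)
    have hsi : sb i = s := (Finset.mem_filter.mp hi).2
    have h1 : dg i = 1 := hd1 i (by rw [hsi]; exact hmemW s hs)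
    rw [hsi, h1]
  rw [hκ] at hA
  obtain ⟨C, hC, hmain⟩ := core_small D.hy hr hA
    (Differentiable.fun_finsetProd fun i _ => φ_diff D i)
    (fun z k' hk' => order_total sb m T (φ_diff D) D.hF0 (QM_diff D e M P)
      (fun i hi => (hEA i hi).1.1) (fun s hs => (hWA s hs).1.1) r
      (Fintype.card β * (k * μ + μ ^ 2)) z
      (fun h => order_QM D e hr hP hPG (by
        rcases h with ⟨i, hi⟩ | ⟨i, i', -, hi, -⟩
        · refine hz0 z i ?_
          have han : AnalyticAt ℂ (D.φ i) z := (φ_diff D i).analyticAt z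
          refine han.analyticOrderAt_ne_zero.mp ?_
          intro h0
          rw [h0] at hi
          exact absurd hi (by norm_num)
        · exact hz0 z i hi) h)
      (fun i hi l hl => hEo i hi z l hl) (fun s hs ν hν => hWo s hs z ν hν)
      (fun ν hν => count_D T D hmμ hd1 hgen hL z ν hν) k' hk')
  refine weaken D.hy ?_ hC hmain
  have h1 : ∑ i ∈ Finset.univ.filter (fun i => T (sb i) = false),
      D.eg (sb i) * ((m (sb i) + 1) * dB i) ≤ ∑ i, D.eg (sb i) * ((μ + 1) * dB i) := by
    refine (Finset.sum_le_sum (fun i _ => ?_)).trans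
      (Finset.sum_le_sum_of_subset (Finset.filter_subset _ _))
    exact Nat.mul_le_mul_left _ (Nat.mul_le_mul_right _ (Nat.add_le_add_right (hmμ _) 1))
  have h2 : ∑ s ∈ Finset.univ.filter (fun s => T s = true), b s ≤ ∑ s, D.eg s * (μ + 1) := by
    refine (Finset.sum_le_sum (fun s hs => ?_)).trans
      (Finset.sum_le_sum_of_subset (Finset.filter_subset _ _))
    exact (hb s (hmemW s hs)).trans (Nat.mul_le_mul_left _ (Nat.add_le_add_right (hmμ s) 1))
  have h3 := Nat.mul_le_mul_left r h1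
  have h4 := Nat.mul_le_mul_left r h2
  rw [add_assoc]
  exact Nat.add_le_add_left (Nat.add_le_add h3 h4) _

end Pool.Agent.H49D
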