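import Pool.Agent.Lib.H49D.DD

set_option autoImplicit false

/-!
CHUNK W0 (M, rewrite the proof of `H78G.Wd_ne_zero_of_Wr` in `H78G/D5B.lean`).  The full Wronskian in a
chart.
-/

open MvPolynomial Real MeasureTheory

namespace Pool.Agent.H49D

open Pool.Agent.H89T Pool.Agent.H78G Pool.Agent.H67T Pool.Agent.H53Y

/-- The derivatives of the quotients `y_j / y_c` and the Wronskian (copy of `H78G.D3B_det`). -/
theorem w0_det {m r : ℕ} (hr : m ≤ r) {y : ℂ → Fin (m + 1) → ℂ} (hy : ∀ j, Differentiable ℂ fun z => y z j)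
    (c : Fin (m + 1)) {z : ℂ} (hz : y z c ≠ 0) :
    Matrix.det (Matrix.of fun l j : Fin (m + 1) =>
        iteratedDeriv (l : ℕ) (fun w => y w j / y w c) z) =
      (-1) ^ (c : ℕ) * (∏ l : Fin m, (((l : ℕ) + 1).factorial : ℂ)) *
        Wd hr (jetf r (ch c y) z) := by
  have hev : (fun w => y w c / y w c) =ᶠ[nhds z] fun _ => (1 : ℂ) := by
    have h1 : ∀ᶠ w in nhds z, y w c ≠ 0 :=
      ((hy c).continuous.continuousAt).eventually_ne hz
    filter_upwards [h1] with w hw
    exact div_self hw
  have hc : ∀ l : ℕ, iteratedDeriv l (fun w => y w c / y w c) z = if l = 0 then 1 else 0 := by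
    intro l
    rw [hev.iteratedDeriv_eq l, iteratedDeriv_const]
  rw [Matrix.det_succ_column _ c, Fin.sum_univ_succ]
  have h0 : ∀ i : Fin m, (-1 : ℂ) ^ ((i.succ : ℕ) + (c : ℕ)) *
      (Matrix.of fun l j : Fin (m + 1) =>
        iteratedDeriv (l : ℕ) (fun w => y w j / y w c) z) i.succ c *
      ((Matrix.of fun l j : Fin (m + 1) =>
        iteratedDeriv (l : ℕ) (fun w => y w j / y w c) z).submatrix
          i.succ.succAbove c.succAbove).det = 0 := by
    intro i
    have : (Matrix.of fun l j : Fin (m + 1) =>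
        iteratedDeriv (l : ℕ) (fun w => y w j / y w c) z) i.succ c = 0 := by
      rw [Matrix.of_apply, hc, if_neg (by simp)]
    rw [this]
    ring
  rw [Finset.sum_eq_zero fun i _ => h0 i, add_zero, Matrix.of_apply, hc, if_pos (by simp)]
  have h1 : ((Matrix.of fun l j : Fin (m + 1) =>
        iteratedDeriv (l : ℕ) (fun w => y w j / y w c) z).submatrix
          (0 : Fin (m + 1)).succAbove c.succAbove) =
      Matrix.of fun l b : Fin m => (((l : ℕ) + 1).factorial : ℂ) *
        (Matrix.of fun b l : Fin m =>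
          jetf r (ch c y) z (b, ⟨(l : ℕ) + 1, by omega⟩)).transpose l b := by
    ext l b
    have hf : (((l : ℕ) + 1).factorial : ℂ) ≠ 0 := by
      exact_mod_cast Nat.factorial_ne_zero _
    simp only [Matrix.submatrix_apply, Matrix.of_apply, Matrix.transpose_apply, jetf, ch,
      Fin.succAbove_zero, Fin.val_succ]
    rw [mul_div_cancel₀ _ hf]
  rw [h1, Matrix.det_mul_column, Matrix.det_transpose]
  unfold Wd
  simp only [Fin.val_zero, zero_add, mul_one]
  ring

/-- CHUNK W0 (M).  Copy the proof of `H78G.Wd_ne_zero_of_Wr` (`H78G/D5B.lean`): there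
`Wr y z = det (T * G)` with `T` lower triangular, all diagonal entries `y z c`
(`Matrix.det_of_lowerTriangular`), and `det G` is expanded along the column `c`
(`H78G.D3B_det` of `H78G/D3B.lean` is exactly `det G`, it is stated for `IsHol y`, but the proof only
uses `hy.diff`; so copy it or use `D5B`). -/
theorem Wr_eq {m r : ℕ} (hr : m ≤ r) {y : ℂ → Fin (m + 1) → ℂ}
    (hy : ∀ j, Differentiable ℂ fun z => y z j) (c : Fin (m + 1)) {z : ℂ} (hz : y z c ≠ 0) :
    Wr y z = (-1) ^ (c : ℕ) * (∏ l : Fin m, (((l : ℕ) + 1).factorial : ℂ)) *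
      y z c ^ (m + 1) * Wd hr (jetf r (ch c y) z) := by
  classical
  set f : Fin (m + 1) → ℂ → ℂ := fun j w => y w j / y w c with hf
  have hne : ∀ᶠ w in nhds z, y w c ≠ 0 := (hy c).continuous.continuousAt.eventually_ne hz
  have hev : ∀ j, (fun w => y w j) =ᶠ[nhds z] (f j * fun w => y w c) := by
    intro j
    filter_upwards [hne] with w hw
    simp only [hf, Pi.mul_apply]
    rw [div_mul_cancel₀ _ hw]
  have hfa : ∀ (j : Fin (m + 1)) (l : ℕ), ContDiffAt ℂ l (f j) z := by
    intro j l
    have h1 : AnalyticAt ℂ (f j) z := by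
      have h2 : AnalyticAt ℂ (fun w => y w j) z := (hy j).analyticAt z
      have h3 : AnalyticAt ℂ (fun w => y w c) z := (hy c).analyticAt z
      exact h2.div h3 hz
    exact h1.contDiffAt
  set G : Matrix (Fin (m + 1)) (Fin (m + 1)) ℂ :=
    Matrix.of fun i j : Fin (m + 1) => iteratedDeriv (i : ℕ) (f j) z with hG
  set T : Matrix (Fin (m + 1)) (Fin (m + 1)) ℂ := Matrix.of fun l i : Fin (m + 1) =>
    if (i : ℕ) ≤ l then ((l : ℕ).choose i : ℂ) * iteratedDeriv ((l : ℕ) - i) (fun w => y w c) z
    else 0 with hT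
  have hTG : (Matrix.of fun l j : Fin (m + 1) => iteratedDeriv (l : ℕ) (fun w => y w j) z) =
      T * G := by
    ext l j
    rw [Matrix.mul_apply]
    simp only [hT, hG, Matrix.of_apply]
    rw [(hev j).iteratedDeriv_eq (l : ℕ), iteratedDeriv_mul (hfa j l) ((hy c).contDiff.contDiffAt)]
    have h1 : ∀ i : Fin (m + 1), (if (i : ℕ) ≤ l then ((l : ℕ).choose i : ℂ) *
        iteratedDeriv ((l : ℕ) - i) (fun w => y w c) z else 0) * iteratedDeriv (i : ℕ) (f j) z =
        (fun i : ℕ => if i ≤ (l : ℕ) then ((l : ℕ).choose i : ℂ) * iteratedDeriv i (f j) z *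
          iteratedDeriv ((l : ℕ) - i) (fun w => y w c) z else 0) i := by
      intro i
      simp only
      split_ifs
      · ring
      · ring
    rw [Finset.sum_congr rfl fun i _ => h1 i, Fin.sum_univ_eq_sum_range
      (fun i : ℕ => if i ≤ (l : ℕ) then ((l : ℕ).choose i : ℂ) * iteratedDeriv i (f j) z *
          iteratedDeriv ((l : ℕ) - i) (fun w => y w c) z else 0) (m + 1)]
    have h2 : Finset.range ((l : ℕ) + 1) ⊆ Finset.range (m + 1) := by
      intro i hi
      rw [Finset.mem_range] at hi ⊢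
      have := l.2
      omega
    rw [← Finset.sum_subset h2]
    · refine Finset.sum_congr rfl fun i hi => ?_
      rw [Finset.mem_range] at hi
      rw [if_pos (by omega)]
    · intro i _ hi
      rw [Finset.mem_range] at hi
      rw [if_neg (by omega)]
  have hT2 : T.det = y z c ^ (m + 1) := by
    have h1 : T.BlockTriangular OrderDual.toDual := by
      intro i j hij
      have h2 : ¬ ((j : ℕ) ≤ i) := by
        have h3 : i < j := hij
        have h4 : (i : ℕ) < j := h3
        omega
      rw [hT, Matrix.of_apply, if_neg h2]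
    rw [Matrix.det_of_lowerTriangular T h1]
    have h3 : ∀ i : Fin (m + 1), T i i = y z c := by
      intro i
      rw [hT, Matrix.of_apply, if_pos le_rfl, Nat.choose_self, Nat.cast_one, one_mul, Nat.sub_self, iteratedDeriv_zero]
    rw [Finset.prod_congr rfl fun i _ => h3 i, Finset.prod_const, Finset.card_univ, Fintype.card_fin]
  have hG2 : G.det = (-1) ^ (c : ℕ) * (∏ l : Fin m, (((l : ℕ) + 1).factorial : ℂ)) * Wd hr (jetf r (ch c y) z) :=
    w0_det hr hy c hz
  unfold Wr
  rw [hTG, Matrix.det_mul, hT2, hG2]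
  ring

end Pool.Agent.H49D
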